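import Mathlib

/-!
# Partitions of a finite product space into boxes

Abstract tools for the leakage theorem of the Exact Triangle problem: averages over the boxes of a
partition of `E → Γ` into boxes, the tower rule, independence of disjoint coordinates inside a
box, and the resampling of one coordinate.
-/

set_option autoImplicit false

namespace Pool.Agent.Helper95.LK

open Finset

/-- A partition of `E → Γ` into boxes: the box of `r` is the product of the sets `C r e`. -/
structure BoxPart (E Γ : Type*) where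
  C : (E → Γ) → E → Finset Γ
  mem : ∀ r e, r e ∈ C r e
  eqv : ∀ r r', (∀ e, r' e ∈ C r e) → C r' = C r

section
variable {E Γ : Type*} [Fintype E] [DecidableEq E] [DecidableEq Γ]

/-- Take the coordinates in `K` from the first point and the others from the second. -/
def mix (K : Finset E) (r r' : E → Γ) : E → Γ := fun e => if e ∈ K then r e else r' e

/-- Independence of disjoint sets of coordinates under the uniform law of a box. -/
lemma indep (K : Finset E) (C : E → Finset Γ) (φ ψ : (E → Γ) → ℝ)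
    (hφ : ∀ r ∈ Fintype.piFinset C, ∀ r' ∈ Fintype.piFinset C, (∀ e ∈ K, r e = r' e) → φ r = φ r')
    (hψ : ∀ r ∈ Fintype.piFinset C, ∀ r' ∈ Fintype.piFinset C, (∀ e, e ∉ K → r e = r' e) →
      ψ r = ψ r') :
    ((Fintype.piFinset C).card : ℝ) * ∑ r ∈ Fintype.piFinset C, φ r * ψ r =
      (∑ r ∈ Fintype.piFinset C, φ r) * ∑ r ∈ Fintype.piFinset C, ψ r := by
  classical
  set B := Fintype.piFinset C with hB
  have hmix : ∀ r ∈ B, ∀ r' ∈ B, mix K r r' ∈ B := by
    intro r hr r' hr'
    rw [hB, Fintype.mem_piFinset] at *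
    intro e
    unfold mix
    split_ifs
    · exact hr e
    · exact hr' e
  have h1 : (∑ r ∈ B, φ r) * ∑ r ∈ B, ψ r = ∑ p ∈ B ×ˢ B, φ p.1 * ψ p.2 := by
    rw [Finset.sum_mul_sum, Finset.sum_product]
  have h2 : (B.card : ℝ) * ∑ r ∈ B, φ r * ψ r = ∑ p ∈ B ×ˢ B, φ p.1 * ψ p.1 := by
    rw [Finset.sum_product, Finset.mul_sum]
    refine Finset.sum_congr rfl fun r _ => ?_
    simp [Finset.sum_const, nsmul_eq_mul]
  rw [h1, h2]
  refine Finset.sum_nbij' (fun p => (mix K p.1 p.2, mix K p.2 p.1))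
    (fun p => (mix K p.1 p.2, mix K p.2 p.1)) ?_ ?_ ?_ ?_ ?_
  · rintro ⟨r, r'⟩ h
    rw [Finset.mem_product] at h ⊢
    exact ⟨hmix _ h.1 _ h.2, hmix _ h.2 _ h.1⟩
  · rintro ⟨r, r'⟩ h
    rw [Finset.mem_product] at h ⊢
    exact ⟨hmix _ h.1 _ h.2, hmix _ h.2 _ h.1⟩
  · rintro ⟨r, r'⟩ _
    ext e
    · simp only [mix]; split_ifs <;> rfl
    · simp only [mix]; split_ifs <;> rfl
  · rintro ⟨r, r'⟩ _
    ext e
    · simp only [mix]; split_ifs <;> rfl
    · simp only [mix]; split_ifs <;> rfl
  · rintro ⟨r, r'⟩ h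
    rw [Finset.mem_product] at h
    have e1 : φ (mix K r r') = φ r :=
      hφ _ (hmix _ h.1 _ h.2) _ h.1 (fun e he => by simp [mix, he])
    have e2 : ψ (mix K r' r) = ψ r :=
      hψ _ (hmix _ h.2 _ h.1) _ h.1 (fun e he => by simp [mix, he])
    simp only
    rw [e1, e2]

/-- Resampling of one coordinate inside a box. -/
lemma resample (C : E → Finset Γ) (d : E) (φ : (E → Γ) → ℝ) :
    ∑ r ∈ Fintype.piFinset C, ∑ α ∈ C d, φ (Function.update r d α) =
      ((C d).card : ℝ) * ∑ r ∈ Fintype.piFinset C, φ r := by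
  classical
  have h2 : ((C d).card : ℝ) * ∑ r ∈ Fintype.piFinset C, φ r =
      ∑ p ∈ Fintype.piFinset C ×ˢ C d, φ p.1 := by
    rw [Finset.sum_product, Finset.mul_sum]
    refine Finset.sum_congr rfl fun r _ => ?_
    simp [Finset.sum_const, nsmul_eq_mul]
  rw [h2, ← Finset.sum_product']
  refine Finset.sum_nbij' (fun p => (Function.update p.1 d p.2, p.1 d))
    (fun p => (Function.update p.1 d p.2, p.1 d)) ?_ ?_ ?_ ?_ ?_
  · rintro ⟨r, α⟩ h
    rw [Finset.mem_product, Fintype.mem_piFinset] at h ⊢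
    refine ⟨fun e => ?_, h.1 d⟩
    by_cases he : e = d
    · subst he; simpa using h.2
    · simpa [Function.update_of_ne he] using h.1 e
  · rintro ⟨r, α⟩ h
    rw [Finset.mem_product, Fintype.mem_piFinset] at h ⊢
    refine ⟨fun e => ?_, h.1 d⟩
    by_cases he : e = d
    · subst he; simpa using h.2
    · simpa [Function.update_of_ne he] using h.1 e
  · rintro ⟨r, α⟩ _
    simp
  · rintro ⟨r, α⟩ _
    simp
  · rintro ⟨r, α⟩ _
    rfl

/-- Sum over a box of a function of one coordinate. -/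
lemma sum_coord (C : E → Finset Γ) (hC : ∀ e, (C e).Nonempty) (d : E) (g : Γ → ℝ) :
    ((C d).card : ℝ) * ∑ r ∈ Fintype.piFinset C, g (r d) =
      ((Fintype.piFinset C).card : ℝ) * ∑ α ∈ C d, g α := by
  rw [← resample C d (fun r => g (r d))]
  simp [Finset.sum_const, nsmul_eq_mul]

end

namespace BoxPart

variable {E Γ : Type*} [Fintype E] [DecidableEq E] [DecidableEq Γ] (P : BoxPart E Γ)

/-- The box of a point. -/
def box (r : E → Γ) : Finset (E → Γ) := Fintype.piFinset (P.C r)

omit [DecidableEq Γ] in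
lemma mem_box {r r' : E → Γ} : r' ∈ P.box r ↔ ∀ e, r' e ∈ P.C r e := Fintype.mem_piFinset

omit [DecidableEq Γ] in
lemma self_mem (r : E → Γ) : r ∈ P.box r := P.mem_box.2 (P.mem r)

omit [DecidableEq Γ] in
lemma C_eq {r r' : E → Γ} (h : r' ∈ P.box r) : P.C r' = P.C r := P.eqv r r' (P.mem_box.1 h)

omit [DecidableEq Γ] in
lemma box_eq {r r' : E → Γ} (h : r' ∈ P.box r) : P.box r' = P.box r := by
  unfold box; rw [P.C_eq h]

omit [DecidableEq Γ] in
lemma box_symm {r r' : E → Γ} (h : r' ∈ P.box r) : r ∈ P.box r' := by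
  rw [P.box_eq h]; exact P.self_mem r

omit [DecidableEq Γ] in
lemma card_box_pos (r : E → Γ) : (0 : ℝ) < ((P.box r).card : ℝ) := by
  exact_mod_cast Finset.card_pos.2 ⟨r, P.self_mem r⟩

omit [Fintype E] [DecidableEq E] [DecidableEq Γ] in
lemma card_C_pos (r : E → Γ) (e : E) : (0 : ℝ) < ((P.C r e).card : ℝ) := by
  exact_mod_cast Finset.card_pos.2 ⟨r e, P.mem r e⟩

/-- Average over the box of a point. -/
noncomputable def avg (φ : (E → Γ) → ℝ) (r : E → Γ) : ℝ :=
  (∑ r' ∈ P.box r, φ r') / ((P.box r).card : ℝ)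

/-- Functions that are constant on the boxes. -/
def Meas (G : (E → Γ) → ℝ) : Prop := ∀ r r', r' ∈ P.box r → G r' = G r

omit [DecidableEq Γ] in
lemma avg_nonneg {φ : (E → Γ) → ℝ} (h : ∀ r, 0 ≤ φ r) (r : E → Γ) : 0 ≤ P.avg φ r :=
  div_nonneg (Finset.sum_nonneg fun _ _ => h _) (Nat.cast_nonneg _)

omit [DecidableEq Γ] in
lemma avg_meas (φ : (E → Γ) → ℝ) : P.Meas (P.avg φ) := by
  intro r r' h
  unfold avg
  rw [P.box_eq h]

omit [DecidableEq Γ] in
lemma Meas.mul {G H : (E → Γ) → ℝ} (hG : P.Meas G) (hH : P.Meas H) :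
    P.Meas (fun r => G r * H r) := by
  intro r r' h
  simp only
  rw [hG r r' h, hH r r' h]

/-- The tower rule. -/
lemma tower [Fintype Γ] (G φ : (E → Γ) → ℝ) (hG : P.Meas G) :
    ∑ r, G r * P.avg φ r = ∑ r, G r * φ r := by
  classical
  have h1 : ∀ r, G r * P.avg φ r = ∑ r' ∈ P.box r, G r' * φ r' / ((P.box r').card : ℝ) := by
    intro r
    unfold avg
    rw [mul_div_assoc', Finset.mul_sum, Finset.sum_div]
    refine Finset.sum_congr rfl fun r' hr' => ?_
    rw [hG r r' hr', P.box_eq hr']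
  rw [Finset.sum_congr rfl fun r _ => h1 r]
  rw [Finset.sum_comm' (s' := fun r' => P.box r') (t' := Finset.univ)]
  · refine Finset.sum_congr rfl fun r' _ => ?_
    rw [Finset.sum_const, nsmul_eq_mul]
    have := (P.card_box_pos r').ne'
    field_simp
  · intro r r'
    simp only [Finset.mem_univ, true_and, and_true]
    exact ⟨fun h => P.box_symm h, fun h => P.box_symm h⟩

lemma avg_mul (K : Finset E) (φ ψ : (E → Γ) → ℝ) (r : E → Γ)
    (hφ : ∀ r₁ ∈ P.box r, ∀ r₂ ∈ P.box r, (∀ e ∈ K, r₁ e = r₂ e) → φ r₁ = φ r₂)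
    (hψ : ∀ r₁ ∈ P.box r, ∀ r₂ ∈ P.box r, (∀ e, e ∉ K → r₁ e = r₂ e) → ψ r₁ = ψ r₂) :
    P.avg (fun r => φ r * ψ r) r = P.avg φ r * P.avg ψ r := by
  have h := indep K (P.C r) φ ψ hφ hψ
  have hp := (P.card_box_pos r).ne'
  unfold avg
  rw [div_mul_div_comm, div_eq_div_iff hp (mul_ne_zero hp hp)]
  have h' : ((P.box r).card : ℝ) * ∑ r' ∈ P.box r, φ r' * ψ r' =
      (∑ r' ∈ P.box r, φ r') * ∑ r' ∈ P.box r, ψ r' := h
  rw [← h']
  ring

/-- A 0/1 function which, along the line in direction `d`, is nonzero at most once, has average at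
most `1 / |C d|` on the box. -/
lemma avg_le_of_unique (φ : (E → Γ) → ℝ) (d : E) (r : E → Γ)
    (h01 : ∀ r, φ r = 0 ∨ φ r = 1)
    (hu : ∀ r α β, φ (Function.update r d α) = 1 → φ (Function.update r d β) = 1 → α = β) :
    P.avg φ r ≤ 1 / ((P.C r d).card : ℝ) := by
  have h := resample (P.C r) d φ
  have hp := P.card_box_pos r
  have hc := P.card_C_pos r d
  have h1 : ∀ r', ∑ α ∈ P.C r d, φ (Function.update r' d α) ≤ 1 := by
    intro r'
    by_cases hex : ∃ α ∈ P.C r d, φ (Function.update r' d α) = 1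
    · obtain ⟨α, hα, hα1⟩ := hex
      rw [Finset.sum_eq_single_of_mem α hα]
      · exact hα1.le
      · intro β _ hβ
        rcases h01 (Function.update r' d β) with h0 | h0
        · exact h0
        · exact absurd (hu r' β α h0 hα1) hβ
    · push Not at hex
      rw [Finset.sum_eq_zero]
      · norm_num
      · intro α hα
        rcases h01 (Function.update r' d α) with h0 | h0
        · exact h0
        · exact absurd h0 (hex α hα)
  have h2 : ((P.C r d).card : ℝ) * ∑ r' ∈ P.box r, φ r' ≤ ((P.box r).card : ℝ) := by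
    have h3 : ((P.C r d).card : ℝ) * ∑ r' ∈ P.box r, φ r' =
        ∑ r' ∈ P.box r, ∑ α ∈ P.C r d, φ (Function.update r' d α) := h.symm
    rw [h3]
    calc ∑ r' ∈ P.box r, ∑ α ∈ P.C r d, φ (Function.update r' d α)
        ≤ ∑ r' ∈ P.box r, (1 : ℝ) := Finset.sum_le_sum fun r' _ => h1 r'
      _ = ((P.box r).card : ℝ) := by simp
  unfold avg
  rw [div_le_div_iff₀ hp hc]
  linarith

/-- Freeze the coordinate `e`. -/
def freeze (e : E) : BoxPart E Γ where
  C r e' := if e' = e then {r e'} else P.C r e'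
  mem r e' := by
    split_ifs
    · exact Finset.mem_singleton_self _
    · exact P.mem r e'
  eqv r r' h := by
    have he : r' e = r e := by
      have := h e
      simpa using this
    have hC : P.C r' = P.C r := by
      apply P.eqv
      intro e'
      by_cases h' : e' = e
      · subst h'
        rw [he]
        exact P.mem r e'
      · have := h e'
        simpa [h'] using this
    funext e'
    by_cases h' : e' = e
    · subst h'
      simp [he]
    · simp [h', hC]

omit [Fintype E] [DecidableEq Γ] in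
lemma freeze_C_self (e : E) (r : E → Γ) : (P.freeze e).C r e = {r e} := by simp [freeze]

omit [Fintype E] [DecidableEq Γ] in
lemma freeze_C_ne {e e' : E} (h : e' ≠ e) (r : E → Γ) : (P.freeze e).C r e' = P.C r e' := by
  simp [freeze, h]

omit [DecidableEq Γ] in
lemma freeze_box_subset (e : E) (r : E → Γ) : (P.freeze e).box r ⊆ P.box r := by
  intro r' h
  rw [mem_box] at h ⊢
  intro e'
  by_cases h' : e' = e
  · subst h'
    have := h e'
    rw [freeze_C_self, Finset.mem_singleton] at this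
    rw [this]
    exact P.mem r e'
  · have := h e'
    rwa [P.freeze_C_ne h'] at this

omit [DecidableEq Γ] in
lemma freeze_meas (e : E) {G : (E → Γ) → ℝ} (hG : P.Meas G) : (P.freeze e).Meas G :=
  fun r r' h => hG r r' (P.freeze_box_subset e r h)

omit [DecidableEq Γ] in
lemma freeze_apply {e : E} {r r' : E → Γ} (h : r' ∈ (P.freeze e).box r) : r' e = r e := by
  have := ((P.freeze e).mem_box.1 h) e
  rwa [freeze_C_self, Finset.mem_singleton] at this

end BoxPart

end Pool.Agent.Helper95.LK
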