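import Mathlib
import Pool.Agent.Helper95.LK.Box

/-!
# Adaptive readings of bits of single weights

An adaptive reading asks, one after the other, arbitrary `{0,1}`-valued functions of single
coordinates of a point `r : E → Γ`. The points with the same answers form a box. The cell of a
coordinate which was asked at most `b` times has density below `2^(-b-t)` with probability at most
`2^(-t)` under the uniform law.
-/

set_option autoImplicit false

namespace Pool.Agent.Helper95.LK

open Finset

/-- An adaptive reading of single coordinates: `act s r` is the question of step `s` on the input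
`r` (or `none`); it is determined by the answers to the earlier questions. -/
structure Reading (E Γ : Type*) where
  act : ℕ → (E → Γ) → Option (E × (Γ → Bool))
  adapted : ∀ s r r', (∀ i < s, ∀ e f, act i r = some (e, f) → f (r' e) = f (r e)) →
    act s r' = act s r

namespace Reading

variable {E Γ : Type*} [Fintype E] [DecidableEq E] [Fintype Γ] [DecidableEq Γ] (R : Reading E Γ)

open Classical in
/-- The values of coordinate `e` which are consistent with the first `s` answers. -/
noncomputable def cell (s : ℕ) (r : E → Γ) (e : E) : Finset Γ :=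
  Finset.univ.filter fun γ => ∀ i < s, ∀ f, R.act i r = some (e, f) → f γ = f (r e)

lemma mem_cell {s : ℕ} {r : E → Γ} {e : E} {γ : Γ} :
    γ ∈ R.cell s r e ↔ ∀ i < s, ∀ f, R.act i r = some (e, f) → f γ = f (r e) := by
  simp [cell]

lemma self_mem (s : ℕ) (r : E → Γ) (e : E) : r e ∈ R.cell s r e :=
  R.mem_cell.2 fun _ _ _ _ => rfl

lemma cell_nonempty (s : ℕ) (r : E → Γ) (e : E) : (R.cell s r e).Nonempty :=
  ⟨_, R.self_mem s r e⟩

lemma act_eq {s : ℕ} {r r' : E → Γ} (h : ∀ e, r' e ∈ R.cell s r e) :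
    ∀ i ≤ s, R.act i r' = R.act i r := by
  intro i hi
  apply R.adapted
  intro j hj e f hf
  exact R.mem_cell.1 (h e) j (lt_of_lt_of_le hj hi) f hf

lemma cell_eq_of_mem {s : ℕ} {r r' : E → Γ} (h : ∀ e, r' e ∈ R.cell s r e) :
    ∀ i ≤ s, R.cell i r' = R.cell i r := by
  intro i hi
  funext e
  ext γ
  rw [mem_cell, mem_cell]
  constructor
  · intro hγ j hj f hf
    have hf' : R.act j r' = some (e, f) := by
      rw [R.act_eq h j (le_of_lt (lt_of_lt_of_le hj hi))]; exact hf
    rw [hγ j hj f hf']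
    exact R.mem_cell.1 (h e) j (lt_of_lt_of_le hj hi) f hf
  · intro hγ j hj f hf
    have hf' : R.act j r = some (e, f) := by
      rw [← R.act_eq h j (le_of_lt (lt_of_lt_of_le hj hi))]; exact hf
    rw [hγ j hj f hf']
    exact (R.mem_cell.1 (h e) j (lt_of_lt_of_le hj hi) f hf').symm

lemma cell_mono {s t : ℕ} (hst : s ≤ t) (r : E → Γ) (e : E) : R.cell t r e ⊆ R.cell s r e := by
  intro γ h
  rw [mem_cell] at h ⊢
  exact fun i hi f hf => h i (lt_of_lt_of_le hi hst) f hf

/-- The box partition at a stopping time. -/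
noncomputable def part (σ : (E → Γ) → ℕ)
    (hσ : ∀ r r', (∀ e, r' e ∈ R.cell (σ r) r e) → σ r' = σ r) : BoxPart E Γ where
  C r e := R.cell (σ r) r e
  mem r e := R.self_mem _ r e
  eqv r r' h := by
    funext e
    rw [hσ r r' h, R.cell_eq_of_mem h (σ r) le_rfl]

/-- The box partition after `s` steps. -/
noncomputable def partAt (s : ℕ) : BoxPart E Γ := R.part (fun _ => s) fun _ _ _ => rfl

lemma partAt_C (s : ℕ) (r : E → Γ) : (R.partAt s).C r = R.cell s r := rfl

open Classical in
/-- Number of questions about `e` among the first `s` steps. -/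
noncomputable def used (s : ℕ) (r : E → Γ) (e : E) : ℕ :=
  ((Finset.range s).filter fun i => ∃ f, R.act i r = some (e, f)).card

lemma used_succ (s : ℕ) (r : E → Γ) (e : E) [Decidable (∃ f, R.act s r = some (e, f))] :
    R.used (s + 1) r e = R.used s r e + (if ∃ f, R.act s r = some (e, f) then 1 else 0) := by
  classical
  unfold used
  rw [Finset.range_add_one, Finset.filter_insert]
  split_ifs with h
  · rw [Finset.card_insert_of_notMem]
    simp
  · simp

lemma cell_succ_of_not {s : ℕ} {r : E → Γ} {e : E} (h : ¬ ∃ f, R.act s r = some (e, f)) :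
    R.cell (s + 1) r e = R.cell s r e := by
  ext γ
  rw [mem_cell, mem_cell]
  constructor
  · exact fun hγ i hi => hγ i (Nat.lt_succ_of_lt hi)
  · intro hγ i hi f hf
    rcases Nat.lt_succ_iff_lt_or_eq.1 hi with h1 | h1
    · exact hγ i h1 f hf
    · subst h1
      exact absurd ⟨f, hf⟩ h

lemma cell_succ_of_some {s : ℕ} {r : E → Γ} {e : E} {f : Γ → Bool}
    (h : R.act s r = some (e, f)) :
    R.cell (s + 1) r e = (R.cell s r e).filter fun γ => f γ = f (r e) := by
  ext γ
  rw [Finset.mem_filter, mem_cell, mem_cell]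
  constructor
  · exact fun hγ => ⟨fun i hi => hγ i (Nat.lt_succ_of_lt hi), hγ s (Nat.lt_succ_self s) f h⟩
  · rintro ⟨hγ, hf⟩ i hi f' hf'
    rcases Nat.lt_succ_iff_lt_or_eq.1 hi with h1 | h1
    · exact hγ i h1 f' hf'
    · subst h1
      rw [h] at hf'
      simp only [Option.some.injEq, Prod.mk.injEq, true_and] at hf'
      subst hf'
      exact hf

/-- The potential. -/
noncomputable def pot (s : ℕ) (e : E) (r : E → Γ) : ℝ :=
  (1 / 2 : ℝ) ^ R.used s r e / ((R.cell s r e).card : ℝ)

lemma used_eq {s : ℕ} {r r' : E → Γ} (h : ∀ e, r' e ∈ R.cell s r e) {i : ℕ} (hi : i ≤ s)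
    (e : E) : R.used i r' e = R.used i r e := by
  classical
  unfold used
  congr 1
  apply Finset.filter_congr
  intro j hj
  rw [R.act_eq h j (le_of_lt (lt_of_lt_of_le (Finset.mem_range.1 hj) hi))]

lemma sum_split (C : Finset Γ) (f : Γ → Bool) :
    ∑ α ∈ C, (1 : ℝ) / ((C.filter fun γ => f γ = f α).card : ℝ) ≤ 2 := by
  classical
  have key : ∀ v : Bool, ∑ α ∈ C.filter (fun α => f α = v),
      (1 : ℝ) / ((C.filter fun γ => f γ = f α).card : ℝ) ≤ 1 := by
    intro v
    have h1 : ∑ α ∈ C.filter (fun α => f α = v),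
        (1 : ℝ) / ((C.filter fun γ => f γ = f α).card : ℝ) =
        ∑ α ∈ C.filter (fun α => f α = v), (1 : ℝ) / ((C.filter fun γ => f γ = v).card : ℝ) := by
      refine Finset.sum_congr rfl fun α hα => ?_
      rw [(Finset.mem_filter.1 hα).2]
    rw [h1, Finset.sum_const, nsmul_eq_mul]
    by_cases h0 : ((C.filter fun γ => f γ = v).card : ℝ) = 0
    · rw [h0]; norm_num
    · rw [mul_one_div, div_self h0]
  have h2 : ∑ α ∈ C, (1 : ℝ) / ((C.filter fun γ => f γ = f α).card : ℝ) =
      ∑ v : Bool, ∑ α ∈ C.filter (fun α => f α = v),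
        (1 : ℝ) / ((C.filter fun γ => f γ = f α).card : ℝ) := by
    rw [Finset.sum_fiberwise]
  rw [h2, Fintype.sum_bool]
  linarith [key true, key false]

lemma pot_step (s : ℕ) (e : E) : ∑ r, R.pot (s + 1) e r ≤ ∑ r, R.pot s e r := by
  classical
  have h0 := (R.partAt s).tower (fun _ => 1) (R.pot (s + 1) e) (fun _ _ _ => rfl)
  simp only [one_mul] at h0
  rw [← h0]
  refine Finset.sum_le_sum fun r _ => ?_
  have hbox : (0 : ℝ) < (((R.partAt s).box r).card : ℝ) := (R.partAt s).card_box_pos r
  have hmem : ∀ r' ∈ (R.partAt s).box r, ∀ e, r' e ∈ R.cell s r e := by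
    intro r' hr'
    exact ((R.partAt s).mem_box).1 hr'
  have hcard : (0 : ℝ) < ((R.cell s r e).card : ℝ) := by
    exact_mod_cast Finset.card_pos.2 (R.cell_nonempty s r e)
  by_cases hex : ∃ f, R.act s r = some (e, f)
  · obtain ⟨f, hf⟩ := hex
    have hval : ∀ r' ∈ (R.partAt s).box r, R.pot (s + 1) e r' =
        (1 / 2 : ℝ) ^ (R.used s r e + 1) *
          (1 / ((((R.cell s r e).filter fun γ => f γ = f (r' e)).card : ℝ))) := by
      intro r' hr'
      have hm := hmem r' hr'
      have hact : R.act s r' = some (e, f) := by rw [R.act_eq hm s le_rfl]; exact hf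
      unfold pot
      rw [R.used_succ s r' e, if_pos ⟨f, hact⟩, R.used_eq hm le_rfl e,
        R.cell_succ_of_some hact, R.cell_eq_of_mem hm s le_rfl]
      ring
    unfold BoxPart.avg
    rw [Finset.sum_congr rfl hval, ← Finset.mul_sum]
    have hs := sum_coord (R.cell s r) (R.cell_nonempty s r) e
      (fun α => (1 : ℝ) / ((((R.cell s r e).filter fun γ => f γ = f α).card : ℝ)))
    have hs' : ((R.cell s r e).card : ℝ) * ∑ r' ∈ (R.partAt s).box r,
        (1 / ((((R.cell s r e).filter fun γ => f γ = f (r' e)).card : ℝ))) =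
        (((R.partAt s).box r).card : ℝ) * ∑ α ∈ R.cell s r e,
          (1 : ℝ) / ((((R.cell s r e).filter fun γ => f γ = f α).card : ℝ)) := hs
    have h2 := sum_split (R.cell s r e) f
    set S := ∑ r' ∈ (R.partAt s).box r,
        (1 / ((((R.cell s r e).filter fun γ => f γ = f (r' e)).card : ℝ))) with hS
    have h3 : ((R.cell s r e).card : ℝ) * S ≤ (((R.partAt s).box r).card : ℝ) * 2 := by
      rw [hs']
      exact mul_le_mul_of_nonneg_left h2 hbox.le
    unfold pot
    rw [div_le_div_iff₀ hbox hcard]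
    have hp : (0 : ℝ) ≤ (1 / 2 : ℝ) ^ R.used s r e := by positivity
    have h4 := mul_le_mul_of_nonneg_left h3 hp
    calc (1 / 2 : ℝ) ^ (R.used s r e + 1) * S * ((R.cell s r e).card : ℝ)
        = (1 / 2 : ℝ) ^ R.used s r e * (((R.cell s r e).card : ℝ) * S) / 2 := by ring
      _ ≤ (1 / 2 : ℝ) ^ R.used s r e * ((((R.partAt s).box r).card : ℝ) * 2) / 2 := by
          linarith
      _ = (1 / 2 : ℝ) ^ R.used s r e * (((R.partAt s).box r).card : ℝ) := by ring
  · have hval : ∀ r' ∈ (R.partAt s).box r, R.pot (s + 1) e r' = R.pot s e r := by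
      intro r' hr'
      have hm := hmem r' hr'
      have hact : ¬ ∃ f, R.act s r' = some (e, f) := by rw [R.act_eq hm s le_rfl]; exact hex
      unfold pot
      rw [R.used_succ s r' e, if_neg hact, R.used_eq hm le_rfl e,
        R.cell_succ_of_not hact, R.cell_eq_of_mem hm s le_rfl]
      simp
    unfold BoxPart.avg
    rw [Finset.sum_congr rfl hval, Finset.sum_const, nsmul_eq_mul]
    rw [mul_comm, mul_div_assoc, div_self hbox.ne', mul_one]

lemma pot_le (s : ℕ) (e : E) :
    ∑ r, R.pot s e r ≤ (Fintype.card (E → Γ) : ℝ) / (Fintype.card Γ : ℝ) := by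
  classical
  induction s with
  | zero =>
    have h : ∀ r, R.pot 0 e r = 1 / (Fintype.card Γ : ℝ) := by
      intro r
      unfold pot used cell
      simp
    rw [Finset.sum_congr rfl fun r _ => h r]
    simp [div_eq_mul_inv]
  | succ s ih => exact (R.pot_step s e).trans ih

open Classical in
/-- Rare cells have small probability under the uniform law. -/
lemma card_rare_le (L b t : ℕ) (e : E) (hb : ∀ r, R.used L r e ≤ b) :
    (2 : ℝ) ^ t * ((Finset.univ.filter fun r : E → Γ =>
      (R.cell L r e).card * 2 ^ (b + t) < Fintype.card Γ).card : ℝ) ≤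
      (Fintype.card (E → Γ) : ℝ) := by
  set A := Finset.univ.filter fun r : E → Γ =>
      (R.cell L r e).card * 2 ^ (b + t) < Fintype.card Γ with hA
  have hpot := R.pot_le L e
  by_cases hG : Fintype.card Γ = 0
  · have : A = ∅ := by
      rw [hA, Finset.filter_eq_empty_iff]
      intro r _
      rw [hG]
      exact Nat.not_lt_zero _
    rw [this]
    simp
  have hG' : (0 : ℝ) < (Fintype.card Γ : ℝ) := by exact_mod_cast Nat.pos_of_ne_zero hG
  have h1 : ∀ r ∈ A, (2 : ℝ) ^ t / (Fintype.card Γ : ℝ) ≤ R.pot L e r := by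
    intro r hr
    have hr' := (Finset.mem_filter.1 hr).2
    have hr'' : ((R.cell L r e).card : ℝ) * 2 ^ (b + t) < (Fintype.card Γ : ℝ) := by
      exact_mod_cast hr'
    have hc : (0 : ℝ) < ((R.cell L r e).card : ℝ) := by
      exact_mod_cast Finset.card_pos.2 (R.cell_nonempty L r e)
    unfold pot
    rw [div_le_div_iff₀ hG' hc]
    have h2 : (1 / 2 : ℝ) ^ b ≤ (1 / 2 : ℝ) ^ R.used L r e :=
      pow_le_pow_of_le_one (by norm_num) (by norm_num) (hb r)
    have h3 : (2 : ℝ) ^ t * ((R.cell L r e).card : ℝ) =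
        (1 / 2 : ℝ) ^ b * (((R.cell L r e).card : ℝ) * 2 ^ (b + t)) := by
      rw [pow_add]
      have : (1 / 2 : ℝ) ^ b * 2 ^ b = 1 := by rw [← mul_pow]; norm_num
      linear_combination (-(2 : ℝ) ^ t * ((R.cell L r e).card : ℝ)) * this
    rw [h3]
    calc (1 / 2 : ℝ) ^ b * (((R.cell L r e).card : ℝ) * 2 ^ (b + t))
        ≤ (1 / 2 : ℝ) ^ b * (Fintype.card Γ : ℝ) :=
          mul_le_mul_of_nonneg_left hr''.le (by positivity)
      _ ≤ (1 / 2 : ℝ) ^ R.used L r e * (Fintype.card Γ : ℝ) :=
          mul_le_mul_of_nonneg_right h2 hG'.le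
  have h2 : (A.card : ℝ) * ((2 : ℝ) ^ t / (Fintype.card Γ : ℝ)) ≤ ∑ r, R.pot L e r := by
    calc (A.card : ℝ) * ((2 : ℝ) ^ t / (Fintype.card Γ : ℝ))
        = ∑ r ∈ A, (2 : ℝ) ^ t / (Fintype.card Γ : ℝ) := by
          rw [Finset.sum_const, nsmul_eq_mul]
      _ ≤ ∑ r ∈ A, R.pot L e r := Finset.sum_le_sum h1
      _ ≤ ∑ r, R.pot L e r := by
          refine Finset.sum_le_sum_of_subset_of_nonneg (Finset.subset_univ _) ?_
          intro r _ _
          unfold pot
          positivity
  have h3 := h2.trans hpot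
  rw [mul_div_assoc', div_le_div_iff_of_pos_right hG'] at h3
  linarith

end Reading

end Pool.Agent.Helper95.LK
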