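import Mathlib
import Pool.Agent.Helper95.LK.Reading

/-!
# The first rare edge of a triangle

Triangles of the complete tripartite graph, uniform labels of the edges in a finite group, and an
adaptive reading of the labels. Under the law in which the labels of one random triangle sum to
zero, the cells of its three edges stay large, with high probability: stop the reading when the
first of the three cells becomes small; at this moment the two others are large, and the second
moment method over the `n` triangles of an edge applies.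
-/

set_option autoImplicit false

namespace Pool.Agent.Helper95.LK

open Finset

/-- Edges of the complete tripartite graph: the edge `(i, a, b)` joins `a` in part `i` to `b` in
part `i + 1`. -/
abbrev Edge (n : ℕ) := Fin 3 × Fin n × Fin n

/-- Triangles: one vertex in every part. -/
abbrev Tri (n : ℕ) := Fin 3 → Fin n

/-- The edge of type `i` of a triangle. -/
def ed {n : ℕ} (i : Fin 3) (T : Tri n) : Edge n := (i, T i, T (i + 1))

lemma ed_ne_of_ne {n : ℕ} {i j : Fin 3} (h : i ≠ j) (T T' : Tri n) : ed i T ≠ ed j T' := by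
  intro h'
  exact h (congrArg Prod.fst h')

lemma tri_eq_of_two {n : ℕ} {i j : Fin 3} (h : i ≠ j) {T T' : Tri n} (hi : ed i T = ed i T')
    (hj : ed j T = ed j T') : T = T' := by
  unfold ed at hi hj
  simp only [Prod.mk.injEq, true_and] at hi hj
  funext k
  fin_cases i <;> fin_cases j <;> fin_cases k <;> simp_all

lemma exists_ed_ne {n : ℕ} {T T' : Tri n} (h : T ≠ T') : ∃ i, ed i T ≠ ed i T' := by
  by_contra hc
  push Not at hc
  exact h (tri_eq_of_two (i := 0) (j := 1) (by decide) (hc 0) (hc 1))

section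
variable {n : ℕ} {Γ : Type*} [Fintype Γ] [DecidableEq Γ] [AddCommGroup Γ]

/-- The indicator of `zero sum on T`. -/
noncomputable def ind (T : Tri n) (r : Edge n → Γ) : ℝ :=
  if ∑ i, r (ed i T) = 0 then 1 else 0

omit [Fintype Γ] in
lemma ind_nonneg (T : Tri n) (r : Edge n → Γ) : 0 ≤ ind T r := by
  unfold ind; split_ifs <;> norm_num

omit [Fintype Γ] in
lemma ind_01 (T : Tri n) (r : Edge n → Γ) : ind T r = 0 ∨ ind T r = 1 := by
  unfold ind; split_ifs <;> simp

omit [Fintype Γ] in
lemma ind_congr {T : Tri n} {r r' : Edge n → Γ} (h : ∀ i, r (ed i T) = r' (ed i T)) :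
    ind T r = ind T r' := by
  unfold ind
  simp only [h]

omit [Fintype Γ] [DecidableEq Γ] in
lemma sum_update (T : Tri n) (r : Edge n → Γ) (i : Fin 3) (α : Γ) :
    ∑ j, Function.update r (ed i T) α (ed j T) =
      α + ∑ j ∈ Finset.univ.erase i, r (ed j T) := by
  rw [← Finset.add_sum_erase _ _ (Finset.mem_univ i)]
  congr 1
  · simp
  · refine Finset.sum_congr rfl fun j hj => ?_
    rw [Function.update_of_ne]
    exact ed_ne_of_ne (Finset.ne_of_mem_erase hj) T T

omit [Fintype Γ] in
lemma ind_unique (T : Tri n) (i : Fin 3) (r : Edge n → Γ) (α β : Γ)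
    (hα : ind T (Function.update r (ed i T) α) = 1)
    (hβ : ind T (Function.update r (ed i T) β) = 1) : α = β := by
  unfold ind at hα hβ
  rw [sum_update] at hα hβ
  by_cases h1 : α + ∑ j ∈ Finset.univ.erase i, r (ed j T) = 0
  · by_cases h2 : β + ∑ j ∈ Finset.univ.erase i, r (ed j T) = 0
    · exact add_right_cancel (h1.trans h2.symm)
    · rw [if_neg h2] at hβ; norm_num at hβ
  · rw [if_neg h1] at hα; norm_num at hα

lemma sum_ind_update (T : Tri n) (i : Fin 3) (r : Edge n → Γ) :
    ∑ α, ind T (Function.update r (ed i T) α) = 1 := by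
  rw [Finset.sum_eq_single (-∑ j ∈ Finset.univ.erase i, r (ed j T))]
  · unfold ind
    rw [sum_update]
    simp
  · intro α _ hα
    rcases ind_01 T (Function.update r (ed i T) α) with h | h
    · exact h
    · exfalso
      apply hα
      apply ind_unique T i r _ _ h
      unfold ind
      rw [sum_update]
      simp
  · intro h
    exact absurd (Finset.mem_univ _) h

lemma resample_univ {E : Type*} [Fintype E] [DecidableEq E] (d : E) (φ : (E → Γ) → ℝ) :
    ∑ r, ∑ α, φ (Function.update r d α) = (Fintype.card Γ : ℝ) * ∑ r, φ r := by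
  have h := resample (fun _ : E => (Finset.univ : Finset Γ)) d φ
  simpa [Fintype.piFinset_univ] using h

lemma sum_ind (T : Tri n) :
    (Fintype.card Γ : ℝ) * ∑ r : Edge n → Γ, ind T r = (Fintype.card (Edge n → Γ) : ℝ) := by
  rw [← resample_univ (ed 0 T) (ind T)]
  simp only [sum_ind_update]
  simp

lemma sum_ind_mul {T T' : Tri n} (h : T ≠ T') :
    (Fintype.card Γ : ℝ) ^ 2 * ∑ r : Edge n → Γ, ind T r * ind T' r =
      (Fintype.card (Edge n → Γ) : ℝ) := by
  obtain ⟨i, hi⟩ := exists_ed_ne h
  have h1 : (Fintype.card Γ : ℝ) * ∑ r : Edge n → Γ, ind T r * ind T' r =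
      ∑ r : Edge n → Γ, ind T' r := by
    rw [← resample_univ (ed i T) (fun r => ind T r * ind T' r)]
    refine Finset.sum_congr rfl fun r _ => ?_
    have h2 : ∀ α, ind T' (Function.update r (ed i T) α) = ind T' r := by
      intro α
      apply ind_congr
      intro j
      rw [Function.update_of_ne]
      by_cases hij : i = j
      · subst hij; exact fun h => hi h.symm
      · exact fun h => ed_ne_of_ne hij T T' h.symm
    simp only [h2]
    rw [← Finset.sum_mul, sum_ind_update, one_mul]
  rw [pow_two, mul_assoc, h1, sum_ind]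

/-- Boxes whose side in the direction of an edge of `T` has at least `g / K` elements. -/
lemma avg_ind_le (P : BoxPart (Edge n) Γ) (T : Tri n) (i : Fin 3) (r : Edge n → Γ) (K : ℕ)
    (hK : Fintype.card Γ ≤ (P.C r (ed i T)).card * K) :
    (Fintype.card Γ : ℝ) * P.avg (ind T) r ≤ (K : ℝ) := by
  have h := P.avg_le_of_unique (ind T) (ed i T) r (ind_01 T) (fun r α β => ind_unique T i r α β)
  have hc := P.card_C_pos r (ed i T)
  have hK' : (Fintype.card Γ : ℝ) ≤ ((P.C r (ed i T)).card : ℝ) * (K : ℝ) := by exact_mod_cast hK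
  calc (Fintype.card Γ : ℝ) * P.avg (ind T) r
      ≤ (Fintype.card Γ : ℝ) * (1 / ((P.C r (ed i T)).card : ℝ)) :=
        mul_le_mul_of_nonneg_left h (Nat.cast_nonneg _)
    _ = (Fintype.card Γ : ℝ) / ((P.C r (ed i T)).card : ℝ) := by ring
    _ ≤ (K : ℝ) := by
        rw [div_le_iff₀ hc]
        linarith

/-- Independence of two triangles that share one frozen edge. -/
lemma avg_mul_freeze (P : BoxPart (Edge n) Γ) {T T' : Tri n} (h : T ≠ T') (i : Fin 3)
    (hi : ed i T = ed i T') (r : Edge n → Γ) :
    (P.freeze (ed i T)).avg (fun r => ind T r * ind T' r) r =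
      (P.freeze (ed i T)).avg (ind T) r * (P.freeze (ed i T)).avg (ind T') r := by
  apply BoxPart.avg_mul (P.freeze (ed i T)) ((Finset.univ.erase i).image fun j => ed j T)
  · intro r₁ h₁ r₂ h₂ hK
    apply ind_congr
    intro j
    by_cases hj : j = i
    · subst hj
      rw [P.freeze_apply h₁, P.freeze_apply h₂]
    · apply hK
      rw [Finset.mem_image]
      exact ⟨j, Finset.mem_erase.2 ⟨hj, Finset.mem_univ j⟩, rfl⟩
  · intro r₁ _ r₂ _ hK
    apply ind_congr
    intro j
    apply hK
    rw [Finset.mem_image]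
    rintro ⟨k, hk, hkj⟩
    have hki : k ≠ i := Finset.ne_of_mem_erase hk
    by_cases hkj' : k = j
    · subst hkj'
      exact h (tri_eq_of_two hki hkj hi)
    · exact ed_ne_of_ne hkj' T T' hkj

/-- Independence of two triangles without a common edge. -/
lemma avg_mul_disjoint (P : BoxPart (Edge n) Γ) {T T' : Tri n} (h : ∀ i, ed i T ≠ ed i T')
    (r : Edge n → Γ) :
    P.avg (fun r => ind T r * ind T' r) r = P.avg (ind T) r * P.avg (ind T') r := by
  apply BoxPart.avg_mul P (Finset.univ.image fun j => ed j T)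
  · intro r₁ _ r₂ _ hK
    apply ind_congr
    intro j
    apply hK
    rw [Finset.mem_image]
    exact ⟨j, Finset.mem_univ j, rfl⟩
  · intro r₁ _ r₂ _ hK
    apply ind_congr
    intro j
    apply hK
    rw [Finset.mem_image]
    rintro ⟨k, _, hkj⟩
    by_cases hkj' : k = j
    · subst hkj'
      exact h k hkj
    · exact ed_ne_of_ne hkj' T T' hkj

/-- The triangle with vertices `a` (part `i`), `b` (part `i + 1`) and `c`. -/
def mkTri (i : Fin 3) (p : (Fin n × Fin n) × Fin n) : Tri n :=
  fun j => if j = i then p.1.1 else if j = i + 1 then p.1.2 else p.2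

lemma ed_mkTri (i : Fin 3) (p : (Fin n × Fin n) × Fin n) :
    ed i (mkTri i p) = (i, p.1.1, p.1.2) := by
  unfold ed mkTri
  have : i + 1 ≠ i := by fin_cases i <;> decide
  simp [this]

lemma mkTri_bijective (i : Fin 3) :
    Function.Bijective (mkTri i : (Fin n × Fin n) × Fin n → Tri n) := by
  constructor
  · rintro ⟨⟨a, b⟩, c⟩ ⟨⟨a', b'⟩, c'⟩ h
    have h1 := congrFun h i
    have h2 := congrFun h (i + 1)
    have h3 := congrFun h (i + 2)
    have e1 : i + 1 ≠ i := by fin_cases i <;> decide
    have e2 : i + 2 ≠ i := by fin_cases i <;> decide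
    have e3 : i + 2 ≠ i + 1 := by fin_cases i <;> decide
    simp only [mkTri, if_true, if_neg e1, if_neg e2, if_neg e3] at h1 h2 h3
    rw [h1, h2, h3]
  · intro T
    refine ⟨((T i, T (i + 1)), T (i + 2)), ?_⟩
    funext j
    unfold mkTri
    fin_cases i <;> fin_cases j <;> rfl

lemma sum_tri (i : Fin 3) (φ : Tri n → ℝ) :
    ∑ T, φ T = ∑ p : Fin n × Fin n, ∑ c : Fin n, φ (mkTri i (p, c)) := by
  rw [← (mkTri_bijective i).sum_comp φ, Fintype.sum_prod_type]

lemma mkTri_inj {i : Fin 3} {p : Fin n × Fin n} {c c' : Fin n}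
    (h : mkTri i (p, c) = mkTri i (p, c')) : c = c' := by
  have := (mkTri_bijective i).1 h
  simpa using this

/-- Second moment bound over the `n` triangles of the edge `(i, p)`. -/
lemma edge_bound (P : BoxPart (Edge n) Γ) (i : Fin 3) (p : Fin n × Fin n) (K t : ℕ)
    (hK : K ≤ n) (rare : (Edge n → Γ) → Prop) [DecidablePred rare]
    (hrm : ∀ r r', r' ∈ P.box r → (rare r' ↔ rare r))
    (hrare : (2 : ℝ) ^ t * ((Finset.univ.filter rare).card : ℝ) ≤
      (Fintype.card (Edge n → Γ) : ℝ))
    (good : Fin n → (Edge n → Γ) → Prop) [∀ c, DecidablePred (good c)]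
    (hgm : ∀ c r r', r' ∈ P.box r → (good c r' ↔ good c r))
    (hgood : ∀ c r, good c r →
      ∀ j, j ≠ i → Fintype.card Γ ≤ (P.C r (ed j (mkTri i (p, c)))).card * K) :
    ∑ c, ∑ r : Edge n → Γ, (if rare r ∧ good c r then
        (Fintype.card Γ : ℝ) * ind (mkTri i (p, c)) r else 0) ≤
      (n : ℝ) * (Fintype.card (Edge n → Γ) : ℝ) * Real.sqrt (2 * (1 / 2) ^ t) := by
  classical
  set g : ℝ := (Fintype.card Γ : ℝ) with hg
  set M : ℝ := (Fintype.card (Edge n → Γ) : ℝ) with hM
  have hg0 : 0 ≤ g := Nat.cast_nonneg _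
  have hM0 : 0 ≤ M := Nat.cast_nonneg _
  set e : Edge n := (i, p.1, p.2) with he
  have hed : ∀ c, ed i (mkTri i (p, c)) = e := fun c => ed_mkTri i (p, c)
  set Q := P.freeze e with hQ
  -- indicators
  let ρ : (Edge n → Γ) → ℝ := fun r => if rare r then 1 else 0
  let γ : Fin n → (Edge n → Γ) → ℝ := fun c r => if good c r then 1 else 0
  have hρP : P.Meas ρ := by
    intro r r' h
    simp only [ρ, hrm r r' h]
  have hγP : ∀ c, P.Meas (γ c) := by
    intro c r r' h
    simp only [γ, hgm c r r' h]
  have hρQ : Q.Meas ρ := P.freeze_meas e hρP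
  have hγQ : ∀ c, Q.Meas (γ c) := fun c => P.freeze_meas e (hγP c)
  have hγ0 : ∀ c r, 0 ≤ γ c r := by intro c r; simp only [γ]; split_ifs <;> norm_num
  have hγ1 : ∀ c r, γ c r ≤ 1 := by intro c r; simp only [γ]; split_ifs <;> norm_num
  have hρ0 : ∀ r, 0 ≤ ρ r := by intro r; simp only [ρ]; split_ifs <;> norm_num
  let A : Fin n → (Edge n → Γ) → ℝ := fun c r => Q.avg (ind (mkTri i (p, c))) r
  have hA0 : ∀ c r, 0 ≤ A c r := fun c r => Q.avg_nonneg (fun r => ind_nonneg _ r) r
  let F : (Edge n → Γ) → ℝ := fun r => ∑ c, g * A c r * γ c r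
  -- step 1: rewrite with the averages
  have step1 : ∑ c, ∑ r : Edge n → Γ, (if rare r ∧ good c r then
        g * ind (mkTri i (p, c)) r else 0) = ∑ r, ρ r * F r := by
    have h1 : ∀ c, ∑ r : Edge n → Γ, (if rare r ∧ good c r then
        g * ind (mkTri i (p, c)) r else 0) = ∑ r, ρ r * (g * A c r * γ c r) := by
      intro c
      have h2 := Q.tower (fun r => ρ r * γ c r) (ind (mkTri i (p, c))) (BoxPart.Meas.mul Q hρQ (hγQ c))
      have h3 : ∑ r : Edge n → Γ, (if rare r ∧ good c r then
          g * ind (mkTri i (p, c)) r else 0) =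
          g * ∑ r, (ρ r * γ c r) * ind (mkTri i (p, c)) r := by
        rw [Finset.mul_sum]
        refine Finset.sum_congr rfl fun r _ => ?_
        simp only [ρ, γ]
        by_cases h4 : rare r <;> by_cases h5 : good c r <;> simp [h4, h5]
      rw [h3, ← h2, Finset.mul_sum]
      refine Finset.sum_congr rfl fun r _ => ?_
      simp only [A]
      ring
    rw [Finset.sum_congr rfl fun c _ => h1 c, Finset.sum_comm]
    refine Finset.sum_congr rfl fun r _ => ?_
    simp only [F]
    rw [Finset.mul_sum]
  rw [step1]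
  -- step 2: Cauchy-Schwarz
  have hCS := Finset.sum_mul_sq_le_sq_mul_sq Finset.univ ρ F
  have hρsq : ∑ r, ρ r ^ 2 = ((Finset.univ.filter rare).card : ℝ) := by
    have : ∀ r, ρ r ^ 2 = if rare r then (1 : ℝ) else 0 := by
      intro r; simp only [ρ]; split_ifs <;> norm_num
    rw [Finset.sum_congr rfl fun r _ => this r, Finset.sum_ite]
    simp
  -- step 3: second moment of F
  have hoff : ∀ c c', c ≠ c' → ∑ r, (g * A c r * γ c r) * (g * A c' r * γ c' r) ≤ M := by
    intro c c' hcc
    have hne : mkTri i (p, c) ≠ mkTri i (p, c') := fun h => hcc (mkTri_inj h)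
    have h1 : ∀ r, A c r * A c' r =
        Q.avg (fun r => ind (mkTri i (p, c)) r * ind (mkTri i (p, c')) r) r := by
      intro r
      have := avg_mul_freeze P hne i ((hed c).trans (hed c').symm) r
      rw [hed c] at this
      exact this.symm
    have h2 : ∑ r, A c r * A c' r =
        ∑ r : Edge n → Γ, ind (mkTri i (p, c)) r * ind (mkTri i (p, c')) r := by
      have h3 := Q.tower (fun _ => 1)
        (fun r => ind (mkTri i (p, c)) r * ind (mkTri i (p, c')) r) (fun _ _ _ => rfl)
      simp only [one_mul] at h3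
      rw [← h3]
      exact Finset.sum_congr rfl fun r _ => h1 r
    have h4 : ∑ r, (g * A c r * γ c r) * (g * A c' r * γ c' r) ≤
        ∑ r, g ^ 2 * (A c r * A c' r) := by
      refine Finset.sum_le_sum fun r _ => ?_
      have h5 : γ c r * γ c' r ≤ 1 := by
        calc γ c r * γ c' r ≤ 1 * 1 :=
              mul_le_mul (hγ1 c r) (hγ1 c' r) (hγ0 c' r) (by norm_num)
          _ = 1 := by norm_num
      have h6 : 0 ≤ g ^ 2 * (A c r * A c' r) := by
        have := hA0 c r
        have := hA0 c' r
        positivity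
      calc (g * A c r * γ c r) * (g * A c' r * γ c' r)
          = g ^ 2 * (A c r * A c' r) * (γ c r * γ c' r) := by ring
        _ ≤ g ^ 2 * (A c r * A c' r) * 1 := mul_le_mul_of_nonneg_left h5 h6
        _ = g ^ 2 * (A c r * A c' r) := by ring
    refine h4.trans ?_
    rw [← Finset.mul_sum, h2]
    exact (sum_ind_mul (Γ := Γ) hne).le
  have hdiag : ∀ c, ∑ r, (g * A c r * γ c r) * (g * A c r * γ c r) ≤ (K : ℝ) * M := by
    intro c
    have h1 : ∀ r, (g * A c r * γ c r) * (g * A c r * γ c r) ≤ (K : ℝ) * (g * A c r) := by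
      intro r
      have hgA : 0 ≤ g * A c r := mul_nonneg hg0 (hA0 c r)
      by_cases h2 : good c r
      · obtain ⟨j, hj⟩ : ∃ j : Fin 3, j ≠ i := ⟨i + 1, by fin_cases i <;> decide⟩
        have h3 := hgood c r h2 j hj
        have h4 : Fintype.card Γ ≤ (Q.C r (ed j (mkTri i (p, c)))).card * K := by
          rw [hQ, P.freeze_C_ne]
          · exact h3
          · rw [← hed c]
            exact ed_ne_of_ne hj _ _
        have h5 := avg_ind_le Q (mkTri i (p, c)) j r K h4
        have h6 : γ c r = 1 := by simp only [γ, if_pos h2]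
        rw [h6, mul_one]
        exact mul_le_mul_of_nonneg_right h5 hgA
      · have h6 : γ c r = 0 := by simp only [γ, if_neg h2]
        rw [h6]
        simp only [mul_zero]
        positivity
    refine (Finset.sum_le_sum fun r _ => h1 r).trans ?_
    rw [← Finset.mul_sum, ← Finset.mul_sum]
    have h3 := Q.tower (fun _ => 1) (ind (mkTri i (p, c))) (fun _ _ _ => rfl)
    simp only [one_mul] at h3
    have h4 : g * ∑ r, A c r = M := by
      simp only [A]
      rw [h3]
      exact sum_ind _
    rw [h4]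
  have hF2 : ∑ r, F r ^ 2 ≤ 2 * (n : ℝ) ^ 2 * M := by
    have h1 : ∀ r, F r ^ 2 = ∑ c, ∑ c', (g * A c r * γ c r) * (g * A c' r * γ c' r) := by
      intro r
      simp only [F]
      rw [pow_two, Finset.sum_mul_sum]
    rw [Finset.sum_congr rfl fun r _ => h1 r, Finset.sum_comm]
    have h2 : ∀ c, ∑ r, ∑ c', (g * A c r * γ c r) * (g * A c' r * γ c' r) ≤
        2 * (n : ℝ) * M := by
      intro c
      rw [Finset.sum_comm]
      calc ∑ c', ∑ r, (g * A c r * γ c r) * (g * A c' r * γ c' r)
          ≤ ∑ c', (if c' = c then (K : ℝ) * M else M) := by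
            refine Finset.sum_le_sum fun c' _ => ?_
            split_ifs with h3
            · subst h3; exact hdiag c'
            · exact hoff c c' (fun h => h3 h.symm)
        _ ≤ ∑ c', ((if c' = c then (K : ℝ) * M else 0) + M) := by
            refine Finset.sum_le_sum fun c' _ => ?_
            split_ifs
            · linarith
            · linarith
        _ = (K : ℝ) * M + (n : ℝ) * M := by
            rw [Finset.sum_add_distrib]
            simp
        _ ≤ 2 * (n : ℝ) * M := by
            have : (K : ℝ) ≤ (n : ℝ) := by exact_mod_cast hK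
            nlinarith
    calc ∑ c, ∑ r, ∑ c', (g * A c r * γ c r) * (g * A c' r * γ c' r)
        ≤ ∑ _c : Fin n, 2 * (n : ℝ) * M := Finset.sum_le_sum fun c _ => h2 c
      _ = 2 * (n : ℝ) ^ 2 * M := by
          rw [Finset.sum_const]
          simp only [Finset.card_univ, Fintype.card_fin, nsmul_eq_mul]
          ring
  -- conclusion
  have hρ2 : ∑ r, ρ r ^ 2 ≤ (1 / 2 : ℝ) ^ t * M := by
    rw [hρsq]
    have h2t : (1 / 2 : ℝ) ^ t * 2 ^ t = 1 := by rw [← mul_pow]; norm_num
    have h3 := mul_le_mul_of_nonneg_left hrare (show (0 : ℝ) ≤ (1 / 2 : ℝ) ^ t by positivity)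
    calc ((Finset.univ.filter rare).card : ℝ)
        = (1 / 2 : ℝ) ^ t * (2 ^ t * ((Finset.univ.filter rare).card : ℝ)) := by
          rw [← mul_assoc, h2t, one_mul]
      _ ≤ (1 / 2 : ℝ) ^ t * M := h3
  have hfin : (∑ r, ρ r * F r) ^ 2 ≤ ((n : ℝ) * M * Real.sqrt (2 * (1 / 2) ^ t)) ^ 2 := by
    refine hCS.trans ?_
    have h1 : (∑ r, ρ r ^ 2) * ∑ r, F r ^ 2 ≤
        ((1 / 2 : ℝ) ^ t * M) * (2 * (n : ℝ) ^ 2 * M) :=
      mul_le_mul hρ2 hF2 (Finset.sum_nonneg fun _ _ => sq_nonneg _) (by positivity)
    refine h1.trans (le_of_eq ?_)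
    rw [mul_pow, Real.sq_sqrt (by positivity)]
    ring
  exact (le_abs_self _).trans (abs_le_of_sq_le_sq hfin (by positivity))

end

end Pool.Agent.Helper95.LK
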