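import Mathlib
import Pool.Agent.Helper95.LK.FirstRare

/-!
# Leakage of adaptive bits does not reveal a zero triangle

Main result of this file: `leak_core`. Let an adaptive algorithm read at most `b` bits (arbitrary
functions to `Bool`) of every edge label `r e ∈ Γ`. If `2 ^ (b + t) ≤ n`, then the average over all
triangles `T` of the law in which the labels of `T` sum to zero is close to the uniform law, also
after excluding `N` triangles that may depend on the answers, up to
`√(3 K / n² + 6 ε) + N K / n³`, `K = 2 ^ (b + t)`, `ε = √(2 / 2 ^ t)`.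
-/

set_option autoImplicit false

namespace Pool.Agent.Helper95.LK

open Finset

variable {n : ℕ} {Γ : Type*} [Fintype Γ] [DecidableEq Γ] [AddCommGroup Γ]

section Stop
variable (R : Reading (Edge n) Γ) (K L : ℕ)

omit [AddCommGroup Γ] in
/-- The cell of `e` is small after `s` steps. -/
def Rare (s : ℕ) (e : Edge n) (r : Edge n → Γ) : Prop :=
  (R.cell s r e).card * K < Fintype.card Γ

open Classical in
/-- The first time at which the cell of `e` is small (or `L`). -/
noncomputable def stopT (e : Edge n) (r : Edge n → Γ) : ℕ :=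
  Nat.find (⟨L, Or.inr le_rfl⟩ : ∃ s, Rare R K s e r ∨ L ≤ s)

omit [AddCommGroup Γ] in
lemma stopT_le (e : Edge n) (r : Edge n → Γ) : stopT R K L e r ≤ L := by
  classical
  unfold stopT
  exact Nat.find_min' _ (Or.inr le_rfl)

omit [AddCommGroup Γ] in
lemma stopT_spec (e : Edge n) (r : Edge n → Γ) :
    Rare R K (stopT R K L e r) e r ∨ L ≤ stopT R K L e r := by
  classical
  unfold stopT
  exact Nat.find_spec (⟨L, Or.inr le_rfl⟩ : ∃ s, Rare R K s e r ∨ L ≤ s)

omit [AddCommGroup Γ] in
lemma stopT_min {e : Edge n} {r : Edge n → Γ} {s : ℕ} (h : Rare R K s e r ∨ L ≤ s) :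
    stopT R K L e r ≤ s := by
  classical
  unfold stopT
  exact Nat.find_min' _ h

omit [AddCommGroup Γ] in
lemma stopT_eq (e : Edge n) (r r' : Edge n → Γ)
    (h : ∀ e', r' e' ∈ R.cell (stopT R K L e r) r e') :
    stopT R K L e r' = stopT R K L e r := by
  have hc : ∀ i ≤ stopT R K L e r, R.cell i r' = R.cell i r := R.cell_eq_of_mem h
  have h1 : stopT R K L e r' ≤ stopT R K L e r := by
    apply stopT_min
    rcases stopT_spec R K L e r with h2 | h2
    · left
      unfold Rare at h2 ⊢
      rw [hc _ le_rfl]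
      exact h2
    · exact Or.inr h2
  apply le_antisymm h1
  apply stopT_min
  rcases stopT_spec R K L e r' with h2 | h2
  · left
    unfold Rare at h2 ⊢
    rw [← hc _ h1]
    exact h2
  · exact Or.inr h2

/-- The partition stopped when the cell of `e` becomes small. -/
noncomputable def stopPart (e : Edge n) : BoxPart (Edge n) Γ :=
  R.part (stopT R K L e) (fun r r' h => stopT_eq R K L e r r' h)

omit [AddCommGroup Γ] in
lemma stopPart_C (e : Edge n) (r : Edge n → Γ) :
    (stopPart R K L e).C r = R.cell (stopT R K L e r) r := rfl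

/-- `e = ed i T` is the first edge of `T` to become rare. -/
def First (i : Fin 3) (T : Tri n) (r : Edge n → Γ) : Prop :=
  Rare R K (stopT R K L (ed i T) r) (ed i T) r ∧
    ∀ j, j ≠ i → ¬ Rare R K (stopT R K L (ed i T) r) (ed j T) r

omit [AddCommGroup Γ] in
lemma rare_mono {s t : ℕ} (hst : s ≤ t) {e : Edge n} {r : Edge n → Γ} (h : Rare R K s e r) :
    Rare R K t e r := by
  unfold Rare at h ⊢
  exact lt_of_le_of_lt (Nat.mul_le_mul_right _ (Finset.card_le_card (R.cell_mono hst r e))) h

omit [AddCommGroup Γ] in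
/-- If some edge of `T` is rare at the end, then some edge is the first one. -/
lemma exists_first (hK : 1 ≤ K) (T : Tri n) (r : Edge n → Γ)
    (h : ∃ j, Rare R K L (ed j T) r) : ∃ i, First R K L i T r := by
  classical
  have hex : ∃ s, ∃ j, Rare R K s (ed j T) r := ⟨L, h⟩
  set s := Nat.find hex with hs
  obtain ⟨i, hi⟩ : ∃ j, Rare R K s (ed j T) r := Nat.find_spec hex
  have hsL : s ≤ L := Nat.find_min' hex h
  have hmin : ∀ s' < s, ∀ j, ¬ Rare R K s' (ed j T) r := by
    intro s' hs' j hj
    exact Nat.find_min hex hs' ⟨j, hj⟩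
  have hstop : stopT R K L (ed i T) r = s := by
    apply le_antisymm (stopT_min R K L (Or.inl hi))
    by_contra hlt
    push Not at hlt
    rcases stopT_spec R K L (ed i T) r with h2 | h2
    · exact hmin _ hlt i h2
    · omega
  have hs0 : s ≠ 0 := by
    intro h0
    rw [h0] at hi
    unfold Rare at hi
    have : R.cell 0 r (ed i T) = Finset.univ := by
      unfold Reading.cell; simp
    rw [this, Finset.card_univ] at hi
    have := Nat.le_mul_of_pos_right (Fintype.card Γ) hK
    omega
  obtain ⟨s', hs'⟩ := Nat.exists_eq_succ_of_ne_zero hs0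
  have hlt : s' < s := by omega
  refine ⟨i, ?_, ?_⟩
  · rw [hstop]; exact hi
  · intro j hj hr
    rw [hstop] at hr
    -- the step `s'` asks `ed i T`
    have hact : ∃ f, R.act s' r = some (ed i T, f) := by
      by_contra hno
      apply hmin s' hlt i
      have := R.cell_succ_of_not hno
      unfold Rare at hi ⊢
      rw [hs', Nat.succ_eq_add_one, this] at hi
      exact hi
    obtain ⟨f, hf⟩ := hact
    have hno : ¬ ∃ f', R.act s' r = some (ed j T, f') := by
      rintro ⟨f', hf'⟩
      rw [hf] at hf'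
      simp only [Option.some.injEq, Prod.mk.injEq] at hf'
      exact hj (Prod.ext_iff.1 hf'.1).1.symm
    apply hmin s' hlt j
    have := R.cell_succ_of_not hno
    unfold Rare at hr ⊢
    rw [hs', Nat.succ_eq_add_one, this] at hr
    exact hr

end Stop

section Core
variable (R : Reading (Edge n) Γ)

open Classical in
/-- The averaged probability that some edge of the planted triangle becomes rare. -/
lemma sum_bad_le (L b t : ℕ) (hK : 2 ^ (b + t) ≤ n) (hb : ∀ r e, R.used L r e ≤ b) :
    ∑ T : Tri n, ∑ r : Edge n → Γ, (if ∃ j, Rare R (2 ^ (b + t)) L (ed j T) r then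
        (Fintype.card Γ : ℝ) * ind T r else 0) ≤
      3 * ((n : ℝ) ^ 3 * (Fintype.card (Edge n → Γ) : ℝ) * Real.sqrt (2 * (1 / 2) ^ t)) := by
  set K := 2 ^ (b + t) with hKdef
  set g : ℝ := (Fintype.card Γ : ℝ) with hg
  set M : ℝ := (Fintype.card (Edge n → Γ) : ℝ) with hM
  have hg0 : 0 ≤ g := Nat.cast_nonneg _
  have hK1 : 1 ≤ K := Nat.one_le_two_pow
  have h1 : ∀ T : Tri n, ∀ r : Edge n → Γ,
      (if ∃ j, Rare R K L (ed j T) r then g * ind T r else 0) ≤
        ∑ i : Fin 3, (if First R K L i T r then g * ind T r else 0) := by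
    intro T r
    have hnn : ∀ i ∈ (Finset.univ : Finset (Fin 3)),
        0 ≤ (if First R K L i T r then g * ind T r else 0) := by
      intro i _
      split_ifs
      · exact mul_nonneg hg0 (ind_nonneg T r)
      · exact le_rfl
    split_ifs with h
    · obtain ⟨i, hi⟩ := exists_first R K L hK1 T r h
      have := Finset.single_le_sum hnn (Finset.mem_univ i)
      rw [if_pos hi] at this
      exact this
    · exact Finset.sum_nonneg hnn
  have h2 : ∀ i : Fin 3, ∑ T : Tri n, ∑ r : Edge n → Γ,
      (if First R K L i T r then g * ind T r else 0) ≤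
        (n : ℝ) ^ 3 * M * Real.sqrt (2 * (1 / 2) ^ t) := by
    intro i
    rw [sum_tri i]
    have h3 : ∀ p : Fin n × Fin n, ∑ c : Fin n, ∑ r : Edge n → Γ,
        (if First R K L i (mkTri i (p, c)) r then g * ind (mkTri i (p, c)) r else 0) ≤
          (n : ℝ) * M * Real.sqrt (2 * (1 / 2) ^ t) := by
      intro p
      set e : Edge n := (i, p.1, p.2) with he
      have hed : ∀ c, ed i (mkTri i (p, c)) = e := fun c => ed_mkTri i (p, c)
      set P := stopPart R K L e with hP
      have hcell : ∀ r r', r' ∈ P.box r →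
          stopT R K L e r' = stopT R K L e r ∧
            R.cell (stopT R K L e r) r' = R.cell (stopT R K L e r) r := by
        intro r r' h
        have hm : ∀ e', r' e' ∈ R.cell (stopT R K L e r) r e' := P.mem_box.1 h
        exact ⟨stopT_eq R K L e r r' hm, R.cell_eq_of_mem hm _ le_rfl⟩
      have key := edge_bound P i p K t hK
        (fun r => Rare R K (stopT R K L e r) e r)
        (by
          intro r r' h
          obtain ⟨h4, h5⟩ := hcell r r' h
          simp only [Rare, h4, h5])
        (by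
          have h4 := R.card_rare_le L b t e (fun r => hb r e)
          refine le_trans ?_ h4
          apply mul_le_mul_of_nonneg_left _ (by positivity)
          exact_mod_cast Finset.card_le_card (by
            intro r hr
            rw [Finset.mem_filter] at hr ⊢
            exact ⟨Finset.mem_univ r, rare_mono R K (stopT_le R K L e r) hr.2⟩))
        (fun c r => ∀ j, j ≠ i → ¬ Rare R K (stopT R K L e r) (ed j (mkTri i (p, c))) r)
        (by
          intro c r r' h
          obtain ⟨h4, h5⟩ := hcell r r' h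
          simp only [Rare, h4, h5])
        (by
          intro c r h j hj
          have := h j hj
          unfold Rare at this
          rw [not_lt] at this
          exact this)
      refine le_trans (le_of_eq ?_) key
      refine Finset.sum_congr rfl fun c _ => Finset.sum_congr rfl fun r _ => ?_
      unfold First
      rw [hed c]
      by_cases hcond : Rare R K (stopT R K L e r) e r ∧
          ∀ j, j ≠ i → ¬ Rare R K (stopT R K L e r) (ed j (mkTri i (p, c))) r
      · rw [if_pos hcond, if_pos hcond]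
      · rw [if_neg hcond, if_neg hcond]
    calc ∑ p : Fin n × Fin n, ∑ c : Fin n, ∑ r : Edge n → Γ,
        (if First R K L i (mkTri i (p, c)) r then g * ind (mkTri i (p, c)) r else 0)
        ≤ ∑ _p : Fin n × Fin n, (n : ℝ) * M * Real.sqrt (2 * (1 / 2) ^ t) :=
          Finset.sum_le_sum fun p _ => h3 p
      _ = (n : ℝ) ^ 3 * M * Real.sqrt (2 * (1 / 2) ^ t) := by
          rw [Finset.sum_const]
          simp only [Finset.card_univ, Fintype.card_prod, Fintype.card_fin, nsmul_eq_mul]
          push_cast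
          ring
  calc ∑ T : Tri n, ∑ r : Edge n → Γ,
        (if ∃ j, Rare R K L (ed j T) r then g * ind T r else 0)
      ≤ ∑ T : Tri n, ∑ r : Edge n → Γ, ∑ i : Fin 3,
          (if First R K L i T r then g * ind T r else 0) :=
        Finset.sum_le_sum fun T _ => Finset.sum_le_sum fun r _ => h1 T r
    _ = ∑ i : Fin 3, ∑ T : Tri n, ∑ r : Edge n → Γ,
          (if First R K L i T r then g * ind T r else 0) := by
        rw [Finset.sum_congr rfl fun T _ => Finset.sum_comm]
        rw [Finset.sum_comm]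
    _ ≤ ∑ _i : Fin 3, (n : ℝ) ^ 3 * M * Real.sqrt (2 * (1 / 2) ^ t) :=
        Finset.sum_le_sum fun i _ => h2 i
    _ = 3 * ((n : ℝ) ^ 3 * M * Real.sqrt (2 * (1 / 2) ^ t)) := by
        rw [Finset.sum_const]
        simp

/-- Pairs of triangles with a common edge. -/
lemma card_share_le (i : Fin 3) (T : Tri n) :
    ((Finset.univ.filter fun T' : Tri n => ed i T = ed i T').card : ℝ) ≤ (n : ℝ) := by
  classical
  have h : (Finset.univ.filter fun T' : Tri n => ed i T = ed i T') ⊆
      Finset.univ.image fun c : Fin n => mkTri i ((T i, T (i + 1)), c) := by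
    intro T' hT'
    have h1 := (Finset.mem_filter.1 hT').2
    obtain ⟨⟨p, c⟩, hp⟩ := (mkTri_bijective (n := n) i).2 T'
    rw [← hp, ed_mkTri] at h1
    unfold ed at h1
    simp only [Prod.mk.injEq, true_and] at h1
    rw [Finset.mem_image]
    refine ⟨c, Finset.mem_univ c, ?_⟩
    rw [← hp, h1.1, h1.2]
  have h2 := (Finset.card_le_card h).trans Finset.card_image_le
  rw [Finset.card_univ, Fintype.card_fin] at h2
  exact_mod_cast h2

open Classical in
/-- **Leakage core.** -/
theorem leak_core (L b t N : ℕ) (hn : 0 < n) (hK : 2 ^ (b + t) ≤ n)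
    (hb : ∀ r e, R.used L r e ≤ b)
    (acc : (Edge n → Γ) → ℝ) (h0 : ∀ r, 0 ≤ acc r) (h1 : ∀ r, acc r ≤ 1)
    (hacc : ∀ r r', (∀ e, r' e ∈ R.cell L r e) → acc r' = acc r)
    (Cov : (Edge n → Γ) → Finset (Tri n))
    (hCov : ∀ r r', (∀ e, r' e ∈ R.cell L r e) → Cov r' = Cov r)
    (hN : ∀ r, (Cov r).card ≤ N) :
    (n : ℝ) ^ 3 * ∑ r, acc r - (n : ℝ) ^ 3 * (Fintype.card (Edge n → Γ) : ℝ) *
        (Real.sqrt (3 * 2 ^ (b + t) / (n : ℝ) ^ 2 + 6 * Real.sqrt (2 * (1 / 2) ^ t)) +
          (N : ℝ) * 2 ^ (b + t) / (n : ℝ) ^ 3) ≤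
      ∑ T : Tri n, ∑ r : Edge n → Γ, (if ∑ i, r (ed i T) = 0 ∧ T ∉ Cov r then
        (Fintype.card Γ : ℝ) * acc r else 0) := by
  set K := 2 ^ (b + t) with hKdef
  set ε := Real.sqrt (2 * (1 / 2) ^ t) with hε
  set g : ℝ := (Fintype.card Γ : ℝ) with hg
  set M : ℝ := (Fintype.card (Edge n → Γ) : ℝ) with hM
  have hg0 : 0 ≤ g := Nat.cast_nonneg _
  have hM0 : 0 ≤ M := Nat.cast_nonneg _
  have hn0 : (0 : ℝ) < (n : ℝ) := by exact_mod_cast hn
  have hKr : ((K : ℕ) : ℝ) = 2 ^ (b + t) := by rw [hKdef]; push_cast; rfl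
  set P := R.partAt L with hP
  have hmem : ∀ r r', r' ∈ P.box r → ∀ e, r' e ∈ R.cell L r e := fun r r' h => P.mem_box.1 h
  -- good triangles
  let γ : Tri n → (Edge n → Γ) → ℝ := fun T r => if ∃ j, Rare R K L (ed j T) r then 0 else 1
  have hγP : ∀ T, P.Meas (γ T) := by
    intro T r r' h
    have hc := R.cell_eq_of_mem (hmem r r' h) L le_rfl
    have hiff : (∃ j, Rare R K L (ed j T) r') ↔ ∃ j, Rare R K L (ed j T) r := by
      simp only [Rare, hc]
    by_cases h6 : ∃ j, Rare R K L (ed j T) r
    · have h7 := hiff.2 h6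
      simp only [γ, if_pos h6, if_pos h7]
    · have h7 := fun h => h6 (hiff.1 h)
      simp only [γ, if_neg h6, if_neg h7]
  have hγ0 : ∀ T r, 0 ≤ γ T r := by intro T r; simp only [γ]; split_ifs <;> norm_num
  have hγ1 : ∀ T r, γ T r ≤ 1 := by intro T r; simp only [γ]; split_ifs <;> norm_num
  let A : Tri n → (Edge n → Γ) → ℝ := fun T r => P.avg (ind T) r
  have hA0 : ∀ T r, 0 ≤ A T r := fun T r => P.avg_nonneg (fun r => ind_nonneg _ r) r
  have hAK : ∀ T r, g * A T r * γ T r ≤ (K : ℝ) := by
    intro T r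
    by_cases h2 : ∃ j, Rare R K L (ed j T) r
    · simp only [γ, if_pos h2, mul_zero]
      exact Nat.cast_nonneg _
    · simp only [γ, if_neg h2, mul_one]
      have h3 : ¬ Rare R K L (ed 0 T) r := fun h => h2 ⟨0, h⟩
      unfold Rare at h3
      rw [not_lt] at h3
      exact avg_ind_le P T 0 r K h3
  have hAnn : ∀ T r, 0 ≤ g * A T r * γ T r := fun T r =>
    mul_nonneg (mul_nonneg hg0 (hA0 T r)) (hγ0 T r)
  let X : (Edge n → Γ) → ℝ := fun r => ∑ T, g * A T r * γ T r
  have hAsum : ∀ T, g * ∑ r, A T r = M := by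
    intro T
    have h3 := P.tower (fun _ => 1) (ind T) (fun _ _ _ => rfl)
    simp only [one_mul] at h3
    simp only [A]
    rw [h3]
    exact sum_ind T
  have hcardT : (Fintype.card (Tri n) : ℝ) = (n : ℝ) ^ 3 := by
    simp [Tri]
  -- first moment of X
  have hX1 : (n : ℝ) ^ 3 * M - 3 * ((n : ℝ) ^ 3 * M * ε) ≤ ∑ r, X r := by
    have hbad := sum_bad_le R L b t hK hb
    have h2 : ∀ T : Tri n, ∑ r, g * A T r * γ T r =
        M - ∑ r : Edge n → Γ, (if ∃ j, Rare R K L (ed j T) r then g * ind T r else 0) := by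
      intro T
      have h3 := P.tower (γ T) (ind T) (hγP T)
      have h4 : ∑ r, g * A T r * γ T r = g * ∑ r, γ T r * P.avg (ind T) r := by
        rw [Finset.mul_sum]
        exact Finset.sum_congr rfl fun r _ => by simp only [A]; ring
      have hMeq : M = g * ∑ r : Edge n → Γ, ind T r := (sum_ind T).symm
      rw [h4, h3, hMeq, Finset.mul_sum, Finset.mul_sum, ← Finset.sum_sub_distrib]
      refine Finset.sum_congr rfl fun r _ => ?_
      simp only [γ]
      split_ifs <;> ring
    have h5 : ∑ r, X r = ∑ T : Tri n, ∑ r, g * A T r * γ T r := by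
      simp only [X]
      rw [Finset.sum_comm]
    rw [h5, Finset.sum_congr rfl fun T _ => h2 T, Finset.sum_sub_distrib, Finset.sum_const,
      Finset.card_univ, nsmul_eq_mul, hcardT]
    linarith
  -- second moment of X
  have hX2 : ∑ r, X r ^ 2 ≤ ((n : ℝ) ^ 6 + 3 * (n : ℝ) ^ 4 * (K : ℝ)) * M := by
    have h2 : ∀ r, X r ^ 2 = ∑ T, ∑ T', (g * A T r * γ T r) * (g * A T' r * γ T' r) := by
      intro r
      simp only [X]
      rw [pow_two, Finset.sum_mul_sum]
    have hgen : ∀ T T' : Tri n, ∑ r, (g * A T r * γ T r) * (g * A T' r * γ T' r) ≤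
        M + ∑ i : Fin 3, (if ed i T = ed i T' then (K : ℝ) * M else 0) := by
      intro T T'
      have hKM : 0 ≤ (K : ℝ) * M := mul_nonneg (Nat.cast_nonneg _) hM0
      by_cases hs : ∃ i, ed i T = ed i T'
      · obtain ⟨i, hi⟩ := hs
        have h3 : ∑ r, (g * A T r * γ T r) * (g * A T' r * γ T' r) ≤ (K : ℝ) * M := by
          have h4 : ∀ r, (g * A T r * γ T r) * (g * A T' r * γ T' r) ≤
              (K : ℝ) * (g * A T' r) := by
            intro r
            have h5 : g * A T' r * γ T' r ≤ g * A T' r := by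
              calc g * A T' r * γ T' r ≤ g * A T' r * 1 :=
                    mul_le_mul_of_nonneg_left (hγ1 T' r) (mul_nonneg hg0 (hA0 T' r))
                _ = g * A T' r := mul_one _
            exact mul_le_mul (hAK T r) h5 (hAnn T' r) (Nat.cast_nonneg _)
          calc ∑ r, (g * A T r * γ T r) * (g * A T' r * γ T' r)
              ≤ ∑ r, (K : ℝ) * (g * A T' r) := Finset.sum_le_sum fun r _ => h4 r
            _ = (K : ℝ) * M := by rw [← Finset.mul_sum, ← Finset.mul_sum, hAsum T']
        have h6 : (K : ℝ) * M ≤ ∑ i : Fin 3, (if ed i T = ed i T' then (K : ℝ) * M else 0) := by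
          have h7 : ∀ j ∈ (Finset.univ : Finset (Fin 3)),
              0 ≤ (if ed j T = ed j T' then (K : ℝ) * M else 0) := by
            intro j _
            split_ifs
            · exact hKM
            · exact le_rfl
          have h8 := Finset.single_le_sum h7 (Finset.mem_univ i)
          rw [if_pos hi] at h8
          exact h8
        linarith
      · push Not at hs
        have hne : T ≠ T' := by
          intro h
          exact hs 0 (by rw [h])
        have h3 : ∑ r, (g * A T r * γ T r) * (g * A T' r * γ T' r) ≤ M := by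
          have h4 : ∀ r, (g * A T r * γ T r) * (g * A T' r * γ T' r) ≤
              g ^ 2 * P.avg (fun r => ind T r * ind T' r) r := by
            intro r
            rw [avg_mul_disjoint P hs r]
            have h5 : γ T r * γ T' r ≤ 1 := by
              calc γ T r * γ T' r ≤ 1 * 1 :=
                    mul_le_mul (hγ1 T r) (hγ1 T' r) (hγ0 T' r) (by norm_num)
                _ = 1 := by norm_num
            have h6 : 0 ≤ g ^ 2 * (A T r * A T' r) := by
              have := hA0 T r
              have := hA0 T' r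
              positivity
            calc (g * A T r * γ T r) * (g * A T' r * γ T' r)
                = g ^ 2 * (A T r * A T' r) * (γ T r * γ T' r) := by ring
              _ ≤ g ^ 2 * (A T r * A T' r) * 1 := mul_le_mul_of_nonneg_left h5 h6
              _ = g ^ 2 * (A T r * A T' r) := by ring
          have h7 := P.tower (fun _ => 1) (fun r => ind T r * ind T' r) (fun _ _ _ => rfl)
          simp only [one_mul] at h7
          calc ∑ r, (g * A T r * γ T r) * (g * A T' r * γ T' r)
              ≤ ∑ r, g ^ 2 * P.avg (fun r => ind T r * ind T' r) r :=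
                Finset.sum_le_sum fun r _ => h4 r
            _ = M := by
                rw [← Finset.mul_sum, h7]
                exact sum_ind_mul hne
        have h8 : 0 ≤ ∑ i : Fin 3, (if ed i T = ed i T' then (K : ℝ) * M else 0) := by
          refine Finset.sum_nonneg fun i _ => ?_
          split_ifs
          · exact hKM
          · exact le_rfl
        linarith
    calc ∑ r, X r ^ 2 = ∑ T, ∑ T', ∑ r, (g * A T r * γ T r) * (g * A T' r * γ T' r) := by
          rw [Finset.sum_congr rfl fun r _ => h2 r, Finset.sum_comm]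
          refine Finset.sum_congr rfl fun T _ => ?_
          rw [Finset.sum_comm]
      _ ≤ ∑ T : Tri n, ∑ T' : Tri n,
            (M + ∑ i : Fin 3, (if ed i T = ed i T' then (K : ℝ) * M else 0)) :=
          Finset.sum_le_sum fun T _ => Finset.sum_le_sum fun T' _ => hgen T T'
      _ = ∑ T : Tri n, ((n : ℝ) ^ 3 * M + ∑ i : Fin 3,
            ((Finset.univ.filter fun T' : Tri n => ed i T = ed i T').card : ℝ) *
              ((K : ℝ) * M)) := by
          refine Finset.sum_congr rfl fun T _ => ?_
          rw [Finset.sum_add_distrib, Finset.sum_const, Finset.card_univ, nsmul_eq_mul, hcardT,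
            Finset.sum_comm]
          congr 1
          refine Finset.sum_congr rfl fun i _ => ?_
          rw [← Finset.sum_filter, Finset.sum_const, nsmul_eq_mul]
      _ ≤ ∑ T : Tri n, ((n : ℝ) ^ 3 * M + ∑ _i : Fin 3, (n : ℝ) * ((K : ℝ) * M)) := by
          refine Finset.sum_le_sum fun T _ => ?_
          refine add_le_add le_rfl (Finset.sum_le_sum fun i _ => ?_)
          exact mul_le_mul_of_nonneg_right (card_share_le i T)
            (mul_nonneg (Nat.cast_nonneg _) hM0)
      _ = ((n : ℝ) ^ 6 + 3 * (n : ℝ) ^ 4 * (K : ℝ)) * M := by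
          rw [Finset.sum_const, Finset.card_univ, nsmul_eq_mul, hcardT]
          simp only [Finset.sum_const, Finset.card_univ, Fintype.card_fin, nsmul_eq_mul]
          push_cast
          ring
  -- deviation of X
  have hdev : ∑ r, |X r - (n : ℝ) ^ 3| ≤
      (n : ℝ) ^ 3 * M * Real.sqrt (3 * (K : ℝ) / (n : ℝ) ^ 2 + 6 * ε) := by
    have hsq : ∑ r, (X r - (n : ℝ) ^ 3) ^ 2 ≤
        (3 * (n : ℝ) ^ 4 * (K : ℝ) + 6 * (n : ℝ) ^ 6 * ε) * M := by
      have h2 : ∑ r, (X r - (n : ℝ) ^ 3) ^ 2 =
          ∑ r, X r ^ 2 - 2 * (n : ℝ) ^ 3 * ∑ r, X r + (n : ℝ) ^ 6 * M := by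
        have h3 : ∀ r, (X r - (n : ℝ) ^ 3) ^ 2 =
            X r ^ 2 - 2 * (n : ℝ) ^ 3 * X r + (n : ℝ) ^ 6 := by
          intro r; ring
        rw [Finset.sum_congr rfl fun r _ => h3 r, Finset.sum_add_distrib,
          Finset.sum_sub_distrib, ← Finset.mul_sum, Finset.sum_const, Finset.card_univ,
          nsmul_eq_mul]
        ring
      rw [h2]
      have h4 : 2 * (n : ℝ) ^ 3 * ((n : ℝ) ^ 3 * M - 3 * ((n : ℝ) ^ 3 * M * ε)) ≤
          2 * (n : ℝ) ^ 3 * ∑ r, X r := mul_le_mul_of_nonneg_left hX1 (by positivity)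
      nlinarith [hX2, h4]
    have hCS := Finset.sum_mul_sq_le_sq_mul_sq Finset.univ (fun _ : Edge n → Γ => (1 : ℝ))
      (fun r => |X r - (n : ℝ) ^ 3|)
    simp only [one_mul, one_pow, sq_abs, Finset.sum_const, Finset.card_univ, nsmul_eq_mul,
      mul_one] at hCS
    have hε0 : 0 ≤ ε := Real.sqrt_nonneg _
    have h5 : (∑ r, |X r - (n : ℝ) ^ 3|) ^ 2 ≤
        ((n : ℝ) ^ 3 * M * Real.sqrt (3 * (K : ℝ) / (n : ℝ) ^ 2 + 6 * ε)) ^ 2 := by
      refine hCS.trans ?_
      rw [mul_pow, Real.sq_sqrt (by positivity)]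
      calc M * ∑ r, (X r - (n : ℝ) ^ 3) ^ 2
          ≤ M * ((3 * (n : ℝ) ^ 4 * (K : ℝ) + 6 * (n : ℝ) ^ 6 * ε) * M) :=
            mul_le_mul_of_nonneg_left hsq hM0
        _ = ((n : ℝ) ^ 3 * M) ^ 2 * (3 * (K : ℝ) / (n : ℝ) ^ 2 + 6 * ε) := by
            field_simp
    exact (le_abs_self _).trans (abs_le_of_sq_le_sq h5 (by positivity))
  -- lower bound for the accepted planted mass outside the covered triangles
  let κ : Tri n → (Edge n → Γ) → ℝ := fun T r => if T ∈ Cov r then 0 else 1
  have hκP : ∀ T, P.Meas (κ T) := by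
    intro T r r' h
    simp only [κ, hCov r r' (hmem r r' h)]
  have haccP : P.Meas acc := fun r r' h => hacc r r' (hmem r r' h)
  have hlow : ∑ T : Tri n, ∑ r, acc r * κ T r * (g * A T r * γ T r) ≤
      ∑ T : Tri n, ∑ r : Edge n → Γ, (if ∑ i, r (ed i T) = 0 ∧ T ∉ Cov r then
        g * acc r else 0) := by
    refine Finset.sum_le_sum fun T _ => ?_
    have h2 := P.tower (fun r => acc r * κ T r * γ T r) (ind T)
      (BoxPart.Meas.mul P (BoxPart.Meas.mul P haccP (hκP T)) (hγP T))
    have h3 : ∑ r, acc r * κ T r * (g * A T r * γ T r) =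
        g * ∑ r, acc r * κ T r * γ T r * P.avg (ind T) r := by
      rw [Finset.mul_sum]
      exact Finset.sum_congr rfl fun r _ => by simp only [A]; ring
    rw [h3, h2, Finset.mul_sum]
    refine Finset.sum_le_sum fun r _ => ?_
    unfold ind
    by_cases h4 : ∑ i, r (ed i T) = 0
    · by_cases h5 : T ∈ Cov r
      · simp [κ, h5]
      · simp only [κ, if_neg h5, h4, if_true, mul_one, true_and]
        rw [if_pos h5]
        have h6 : acc r * γ T r ≤ acc r * 1 := mul_le_mul_of_nonneg_left (hγ1 T r) (h0 r)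
        nlinarith [h6, hg0]
    · simp [h4]
  refine le_trans ?_ hlow
  have h2 : ∑ T : Tri n, ∑ r, acc r * κ T r * (g * A T r * γ T r) =
      ∑ r, acc r * (X r - ∑ T ∈ Cov r, g * A T r * γ T r) := by
    rw [Finset.sum_comm]
    refine Finset.sum_congr rfl fun r _ => ?_
    have h3 : ∑ T : Tri n, acc r * κ T r * (g * A T r * γ T r) =
        acc r * ∑ T : Tri n, κ T r * (g * A T r * γ T r) := by
      rw [Finset.mul_sum]
      exact Finset.sum_congr rfl fun T _ => by ring
    rw [h3]
    congr 1
    have h4 : ∑ T ∈ Cov r, g * A T r * γ T r =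
        ∑ T : Tri n, (if T ∈ Cov r then g * A T r * γ T r else 0) := by
      rw [Finset.sum_ite_mem, Finset.univ_inter]
    rw [h4]
    simp only [X]
    rw [← Finset.sum_sub_distrib]
    refine Finset.sum_congr rfl fun T _ => ?_
    simp only [κ]
    split_ifs <;> ring
  rw [h2]
  have h3 : ∀ r, acc r * (n : ℝ) ^ 3 - |X r - (n : ℝ) ^ 3| - (N : ℝ) * (K : ℝ) ≤
      acc r * (X r - ∑ T ∈ Cov r, g * A T r * γ T r) := by
    intro r
    have h4 : ∑ T ∈ Cov r, g * A T r * γ T r ≤ (N : ℝ) * (K : ℝ) := by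
      calc ∑ T ∈ Cov r, g * A T r * γ T r ≤ ∑ _T ∈ Cov r, (K : ℝ) :=
            Finset.sum_le_sum fun T _ => hAK T r
        _ = ((Cov r).card : ℝ) * (K : ℝ) := by rw [Finset.sum_const, nsmul_eq_mul]
        _ ≤ (N : ℝ) * (K : ℝ) :=
            mul_le_mul_of_nonneg_right (by exact_mod_cast hN r) (Nat.cast_nonneg _)
    have hNK : 0 ≤ (N : ℝ) * (K : ℝ) := by positivity
    have h5 : acc r * ((n : ℝ) ^ 3 - X r) ≤ |X r - (n : ℝ) ^ 3| := by
      calc acc r * ((n : ℝ) ^ 3 - X r) ≤ acc r * |X r - (n : ℝ) ^ 3| :=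
            mul_le_mul_of_nonneg_left (by rw [abs_sub_comm]; exact le_abs_self _) (h0 r)
        _ ≤ 1 * |X r - (n : ℝ) ^ 3| := mul_le_mul_of_nonneg_right (h1 r) (abs_nonneg _)
        _ = |X r - (n : ℝ) ^ 3| := one_mul _
    have h6 : acc r * ∑ T ∈ Cov r, g * A T r * γ T r ≤ (N : ℝ) * (K : ℝ) := by
      calc acc r * ∑ T ∈ Cov r, g * A T r * γ T r ≤ acc r * ((N : ℝ) * (K : ℝ)) :=
            mul_le_mul_of_nonneg_left h4 (h0 r)
        _ ≤ 1 * ((N : ℝ) * (K : ℝ)) := mul_le_mul_of_nonneg_right (h1 r) hNK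
        _ = (N : ℝ) * (K : ℝ) := one_mul _
    nlinarith [h5, h6]
  have h4 := Finset.sum_le_sum fun r (_ : r ∈ (Finset.univ : Finset (Edge n → Γ))) => h3 r
  refine le_trans ?_ h4
  rw [Finset.sum_sub_distrib, Finset.sum_sub_distrib, ← Finset.sum_mul, Finset.sum_const,
    Finset.card_univ, nsmul_eq_mul]
  have h5 : (n : ℝ) ^ 3 * M * ((N : ℝ) * 2 ^ (b + t) / (n : ℝ) ^ 3) = M * ((N : ℝ) * (K : ℝ)) := by
    rw [hKr]
    field_simp
  rw [hKr] at hdev
  rw [mul_add, h5]
  linarith

end Core

end Pool.Agent.Helper95.LK
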