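import Mathlib
import Pool.Agent.Helper95.LK.Core

/-!
# Assembly of the lower bound

From the leakage core (one random string) to the bound for a randomized algorithm.
-/

set_option autoImplicit false

namespace Pool.Agent.Helper95.LK

open Finset

/-- The ideal run of an algorithm for one random string: the bits that it reads of the residues
modulo `q`, its output and the set of the triangles that it covers. -/
structure Ideal (m L b N q : ℕ) [NeZero q] where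
  R : Reading (Edge m) (ZMod q)
  used_le : ∀ r e, R.used L r e ≤ b
  lout : (Edge m → ZMod q) → Bool
  lout_eq : ∀ r r', (∀ e, r' e ∈ R.cell L r e) → lout r' = lout r
  Cov : (Edge m → ZMod q) → Finset (Tri m)
  Cov_eq : ∀ r r', (∀ e, r' e ∈ R.cell L r e) → Cov r' = Cov r
  Cov_le : ∀ r, (Cov r).card ≤ N

variable {m L b N q : ℕ} [NeZero q]

open Classical in
/-- Probability of the output `false` under the uniform law of the residues. -/
noncomputable def Ideal.pB (I : Ideal m L b N q) : ℝ :=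
  ((univ.filter fun r : Edge m → ZMod q => I.lout r = false).card : ℝ) /
    (q : ℝ) ^ Fintype.card (Edge m)

open Classical in
/-- Probability of the output `false`, with `T` not covered, under the law planted at `T`. -/
noncomputable def Ideal.pT (I : Ideal m L b N q) (T : Tri m) : ℝ :=
  (q : ℝ) * ((univ.filter fun r : Edge m → ZMod q =>
    ∑ i, r (ed i T) = 0 ∧ I.lout r = false ∧ T ∉ I.Cov r).card : ℝ) /
    (q : ℝ) ^ Fintype.card (Edge m)

lemma Ideal.planted_sum (I : Ideal m L b N q) (hm : 0 < m) (hK : 2 ^ (b + 15) ≤ m) :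
    (m : ℝ) ^ 3 * I.pB - (m : ℝ) ^ 3 *
        (Real.sqrt (3 * 2 ^ (b + 15) / (m : ℝ) ^ 2 + 6 * Real.sqrt (2 * (1 / 2) ^ 15)) +
          (N : ℝ) * 2 ^ (b + 15) / (m : ℝ) ^ 3) ≤ ∑ T : Tri m, I.pT T := by
  classical
  have hq0 : (0 : ℝ) < (q : ℝ) := by exact_mod_cast Nat.pos_of_ne_zero (NeZero.ne q)
  set W : ℝ := (q : ℝ) ^ Fintype.card (Edge m) with hW
  have hW0 : 0 < W := by positivity
  have hcard : (Fintype.card (Edge m → ZMod q) : ℝ) = W := by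
    rw [Fintype.card_fun, ZMod.card]
    push_cast
    rfl
  have key := leak_core I.R L b 15 N hm hK I.used_le
    (fun r => if I.lout r = false then 1 else 0)
    (by intro r; split_ifs <;> norm_num)
    (by intro r; split_ifs <;> norm_num)
    (by intro r r' h; simp only [I.lout_eq r r' h])
    I.Cov I.Cov_eq I.Cov_le
  rw [hcard] at key
  set δ := Real.sqrt (3 * 2 ^ (b + 15) / (m : ℝ) ^ 2 + 6 * Real.sqrt (2 * (1 / 2) ^ 15)) +
          (N : ℝ) * 2 ^ (b + 15) / (m : ℝ) ^ 3 with hδ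
  have h1 : ∑ r : Edge m → ZMod q, (if I.lout r = false then (1 : ℝ) else 0) = I.pB * W := by
    rw [← Finset.sum_filter, Finset.sum_const, nsmul_eq_mul, mul_one]
    unfold Ideal.pB
    rw [div_mul_cancel₀ _ hW0.ne']
  have h2 : ∀ T : Tri m, ∑ r : Edge m → ZMod q,
      (if ∑ i, r (ed i T) = 0 ∧ T ∉ I.Cov r then
        (Fintype.card (ZMod q) : ℝ) * (if I.lout r = false then 1 else 0) else 0) =
      I.pT T * W := by
    intro T
    have h3 : ∀ r : Edge m → ZMod q,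
        (if ∑ i, r (ed i T) = 0 ∧ T ∉ I.Cov r then
          (Fintype.card (ZMod q) : ℝ) * (if I.lout r = false then 1 else 0) else 0) =
        if ∑ i, r (ed i T) = 0 ∧ I.lout r = false ∧ T ∉ I.Cov r then (q : ℝ) else 0 := by
      intro r
      rw [ZMod.card]
      by_cases a1 : ∑ i, r (ed i T) = 0
      · by_cases a2 : T ∈ I.Cov r
        · simp [a1, a2]
        · by_cases a3 : I.lout r = false
          · simp [a1, a2, a3]
          · simp [a1, a2, a3]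
      · simp [a1]
    rw [Finset.sum_congr rfl fun r _ => h3 r, ← Finset.sum_filter, Finset.sum_const,
      nsmul_eq_mul]
    unfold Ideal.pT
    rw [div_mul_cancel₀ _ hW0.ne']
    ring
  rw [h1, Finset.sum_congr rfl fun T _ => h2 T, ← Finset.sum_mul] at key
  have h4 : ((m : ℝ) ^ 3 * I.pB - (m : ℝ) ^ 3 * δ) * W ≤ (∑ T : Tri m, I.pT T) * W := by
    calc ((m : ℝ) ^ 3 * I.pB - (m : ℝ) ^ 3 * δ) * W
        = (m : ℝ) ^ 3 * (I.pB * W) - (m : ℝ) ^ 3 * W * δ := by ring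
      _ ≤ _ := key
  exact le_of_mul_le_mul_right h4 hW0

/-- The numerical defect. -/
lemma defect_le {m b : ℕ} (hK : 2 ^ (b + 15) ≤ m) :
    Real.sqrt (3 * 2 ^ (b + 15) / (m : ℝ) ^ 2 + 6 * Real.sqrt (2 * (1 / 2) ^ 15)) ≤ 217 / 1000 := by
  have hs : Real.sqrt (2 * (1 / 2 : ℝ) ^ 15) = 1 / 128 := by
    rw [show (2 * (1 / 2 : ℝ) ^ 15) = (1 / 128) ^ 2 by norm_num]
    exact Real.sqrt_sq (by norm_num)
  rw [hs]
  have hm : (2 : ℝ) ^ (b + 15) ≤ (m : ℝ) := by exact_mod_cast hK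
  have hm15 : (32768 : ℝ) ≤ (m : ℝ) := by
    have : 2 ^ 15 ≤ m := le_trans (Nat.pow_le_pow_right (by norm_num) (by omega)) hK
    have : (2 : ℝ) ^ 15 ≤ (m : ℝ) := by exact_mod_cast this
    linarith
  have hm0 : (0 : ℝ) < (m : ℝ) := by linarith
  have h1 : 3 * 2 ^ (b + 15) / (m : ℝ) ^ 2 ≤ 1 / 10000 := by
    rw [div_le_div_iff₀ (by positivity) (by norm_num)]
    nlinarith
  apply Real.sqrt_le_iff.2
  constructor
  · norm_num
  · linarith

open Classical in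
/-- **Assembly.** A randomized algorithm whose runs on the null and on the planted instances are
close to its ideal runs covers many triangles. -/
theorem assembly {m L b N R : ℕ} (hm : 0 < m) (hK : 2 ^ (b + 15) ≤ m)
    (q : (Fin R → Bool) → ℕ) [hq : ∀ ρ, NeZero (q ρ)] (I : ∀ ρ, Ideal m L b N (q ρ))
    (fB : (Fin R → Bool) → ℝ) (fT : Tri m → (Fin R → Bool) → ℝ) (err : ℝ)
    (herr : err ≤ 1 / 200)
    (hB : 2 * (2 : ℝ) ^ R ≤ 3 * ∑ ρ, fB ρ)
    (hT : ∀ T, 3 * ∑ ρ, fT T ρ ≤ (2 : ℝ) ^ R)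
    (MB : ∀ ρ, fB ρ ≤ (I ρ).pB + err)
    (MT : ∀ ρ T, (I ρ).pT T - err ≤ fT T ρ) :
    (m : ℝ) ^ 3 ≤ 10 * (N : ℝ) * 2 ^ (b + 15) := by
  set δ := Real.sqrt (3 * 2 ^ (b + 15) / (m : ℝ) ^ 2 + 6 * Real.sqrt (2 * (1 / 2) ^ 15)) +
          (N : ℝ) * 2 ^ (b + 15) / (m : ℝ) ^ 3 with hδ
  set M3 : ℝ := (m : ℝ) ^ 3 with hM3
  have hm0 : (0 : ℝ) < (m : ℝ) := by exact_mod_cast hm
  have hM30 : 0 < M3 := by positivity
  have hcardT : (Fintype.card (Tri m) : ℝ) = M3 := by simp [Tri, hM3]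
  have hcardρ : (Fintype.card (Fin R → Bool) : ℝ) = 2 ^ R := by simp
  have hQ0 : (0 : ℝ) < 2 ^ R := by positivity
  have h1 : ∀ ρ, M3 * fB ρ - M3 * (δ + 2 * err) ≤ ∑ T : Tri m, fT T ρ := by
    intro ρ
    have h2 := (I ρ).planted_sum hm hK
    have h3 : ∑ T : Tri m, ((I ρ).pT T - err) ≤ ∑ T : Tri m, fT T ρ :=
      Finset.sum_le_sum fun T _ => MT ρ T
    rw [Finset.sum_sub_distrib, Finset.sum_const, Finset.card_univ, nsmul_eq_mul, hcardT] at h3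
    have h4 : M3 * fB ρ ≤ M3 * ((I ρ).pB + err) := mul_le_mul_of_nonneg_left (MB ρ) hM30.le
    rw [← hδ] at h2
    nlinarith
  have h2 := Finset.sum_le_sum fun ρ (_ : ρ ∈ (Finset.univ : Finset (Fin R → Bool))) => h1 ρ
  rw [Finset.sum_sub_distrib, ← Finset.mul_sum, Finset.sum_const, Finset.card_univ, nsmul_eq_mul,
    hcardρ, Finset.sum_comm] at h2
  have h3 : ∑ T : Tri m, ∑ ρ, fT T ρ ≤ ∑ _T : Tri m, (2 : ℝ) ^ R / 3 :=
    Finset.sum_le_sum fun T _ => by linarith [hT T]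
  rw [Finset.sum_const, Finset.card_univ, nsmul_eq_mul, hcardT] at h3
  have h4 : M3 * (2 * (2 : ℝ) ^ R / 3) ≤ M3 * ∑ ρ, fB ρ :=
    mul_le_mul_of_nonneg_left (by linarith) hM30.le
  have h5 : M3 * (2 : ℝ) ^ R * (1 / 3) ≤ M3 * (2 : ℝ) ^ R * (δ + 2 * err) := by nlinarith
  have h6 : (1 / 3 : ℝ) ≤ δ + 2 * err := le_of_mul_le_mul_left h5 (by positivity)
  have h7 := defect_le hK
  have h8 : (1 / 10 : ℝ) ≤ (N : ℝ) * 2 ^ (b + 15) / M3 := by
    rw [hδ] at h6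
    linarith
  rw [le_div_iff₀ hM30] at h8
  linarith

/-- Numerical conclusion. -/
lemma numeric {n b D d l : ℕ} (hn : 2 ^ (b + 17) ≤ n) (hD : 0 < D) (hDn : D ≤ n ^ 3)
    (hl : l = Nat.log 2 D + 1)
    (h : ((n / 3 : ℕ) : ℝ) ^ 3 ≤
      10 * ((468 * (d + 1) * l ^ 3 * D + D : ℕ) : ℝ) * 2 ^ (b + 15)) :
    (n : ℝ) ^ 3 ≤ 2 ^ 37 * 2 ^ b * (D : ℝ) * ((d : ℝ) + 1) * (Real.logb 2 n) ^ 3 := by
  set lam := Real.logb 2 n with hlam
  have hn17 : (2 : ℝ) ^ 17 ≤ (n : ℝ) := by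
    have : 2 ^ 17 ≤ n := le_trans (Nat.pow_le_pow_right (by norm_num) (by omega)) hn
    exact_mod_cast this
  have hn0 : (0 : ℝ) < (n : ℝ) := lt_of_lt_of_le (by norm_num) hn17
  have hlam17 : 17 ≤ lam := by
    rw [hlam, Real.le_logb_iff_rpow_le (by norm_num) hn0]
    have : (2 : ℝ) ^ (17 : ℝ) = 2 ^ 17 := by norm_num
    rw [this]; exact hn17
  have hl4 : (l : ℝ) ≤ 3 * lam + 1 := by
    have h2 : 2 ^ (Nat.log 2 D) ≤ n ^ 3 := (Nat.pow_log_le_self 2 hD.ne').trans hDn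
    have h3 : ((2 : ℝ)) ^ (Nat.log 2 D) ≤ (n : ℝ) ^ 3 := by exact_mod_cast h2
    have h4 : (Nat.log 2 D : ℝ) ≤ 3 * lam := by
      have h5 : Real.logb 2 ((2 : ℝ) ^ (Nat.log 2 D)) ≤ Real.logb 2 ((n : ℝ) ^ 3) :=
        Real.logb_le_logb_of_le (by norm_num) (by positivity) h3
      rw [Real.logb_pow, Real.logb_pow, Real.logb_self_eq_one (by norm_num), mul_one] at h5
      push_cast at h5
      exact h5
    rw [hl]; push_cast; linarith
  have hl5 : (l : ℝ) ≤ 307 / 100 * lam := by linarith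
  have hl1 : (1 : ℝ) ≤ l := by
    rw [hl]; push_cast; linarith [(Nat.cast_nonneg _ : (0 : ℝ) ≤ (Nat.log 2 D : ℝ))]
  have hl3 : (l : ℝ) ^ 3 ≤ 29 * lam ^ 3 := by
    calc (l : ℝ) ^ 3 ≤ (307 / 100 * lam) ^ 3 := by gcongr
      _ = (307 / 100) ^ 3 * lam ^ 3 := by ring
      _ ≤ 29 * lam ^ 3 := by
          apply mul_le_mul_of_nonneg_right (by norm_num)
          positivity
  have h1l3 : 1 ≤ (l : ℝ) ^ 3 := one_le_pow₀ hl1
  have hDr : (0 : ℝ) ≤ D := Nat.cast_nonneg _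
  have hd0 : (0 : ℝ) ≤ d := Nat.cast_nonneg _
  have hN : ((468 * (d + 1) * l ^ 3 * D + D : ℕ) : ℝ) ≤
      13601 * (((d : ℝ) + 1) * lam ^ 3 * D) := by
    push_cast
    have hq : 1 ≤ ((d : ℝ) + 1) * (l : ℝ) ^ 3 := by nlinarith
    have h5 : 468 * ((d : ℝ) + 1) * (l : ℝ) ^ 3 * D + D ≤
        469 * (((d : ℝ) + 1) * (l : ℝ) ^ 3) * D := by
      nlinarith [mul_le_mul_of_nonneg_right hq hDr]
    have h8 : (((d : ℝ) + 1) * (l : ℝ) ^ 3) * D ≤ (((d : ℝ) + 1) * (29 * lam ^ 3)) * D := by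
      apply mul_le_mul_of_nonneg_right _ hDr
      exact mul_le_mul_of_nonneg_left hl3 (by linarith)
    linarith
  have hm : (n : ℝ) ≤ 3 * ((n / 3 : ℕ) : ℝ) + 2 := by
    have : n ≤ 3 * (n / 3) + 2 := by omega
    exact_mod_cast this
  have hm2 : (32768 : ℝ) ≤ ((n / 3 : ℕ) : ℝ) := by
    have h1 : 2 ^ 17 ≤ n := le_trans (Nat.pow_le_pow_right (by norm_num) (by omega)) hn
    have : 32768 ≤ n / 3 := by omega
    exact_mod_cast this
  have h6 : (n : ℝ) ^ 3 ≤ 28 * ((n / 3 : ℕ) : ℝ) ^ 3 := by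
    have h7 : (n : ℝ) ≤ 3001 / 1000 * ((n / 3 : ℕ) : ℝ) := by linarith
    calc (n : ℝ) ^ 3 ≤ (3001 / 1000 * ((n / 3 : ℕ) : ℝ)) ^ 3 := by gcongr
      _ = (3001 / 1000) ^ 3 * ((n / 3 : ℕ) : ℝ) ^ 3 := by ring
      _ ≤ 28 * ((n / 3 : ℕ) : ℝ) ^ 3 := by
          apply mul_le_mul_of_nonneg_right (by norm_num)
          positivity
  have h9 : 0 ≤ ((d : ℝ) + 1) * lam ^ 3 * D := by positivity
  have h10 : (0 : ℝ) ≤ 2 ^ (b + 15) := by positivity
  calc (n : ℝ) ^ 3 ≤ 28 * ((n / 3 : ℕ) : ℝ) ^ 3 := h6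
    _ ≤ 28 * (10 * ((468 * (d + 1) * l ^ 3 * D + D : ℕ) : ℝ) * 2 ^ (b + 15)) := by linarith
    _ ≤ 28 * (10 * (13601 * (((d : ℝ) + 1) * lam ^ 3 * D)) * 2 ^ (b + 15)) := by
        gcongr
    _ = 28 * 10 * 13601 * 2 ^ 15 * (2 ^ b * (((d : ℝ) + 1) * lam ^ 3 * D)) := by
        rw [pow_add]; ring
    _ ≤ 2 ^ 37 * (2 ^ b * (((d : ℝ) + 1) * lam ^ 3 * D)) := by
        apply mul_le_mul_of_nonneg_right _ (by positivity)
        norm_num
    _ = 2 ^ 37 * 2 ^ b * (D : ℝ) * ((d : ℝ) + 1) * lam ^ 3 := by ring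

end Pool.Agent.Helper95.LK
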