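import Mathlib
import Pool.Agent.Helper22.ETMain
import Pool.Agent.Helper8.LK.Par

/-!
# Potentials that hide the planted triangle and the noise

The parameters of `ETMain`, with the noise range multiplied by `n ^ e`.
-/

set_option autoImplicit false

namespace Pool.Agent.Helper95.LK

open Finset
open Pool.Agent.Helper22.ETModel Pool.Agent.Helper8.LK

lemma params {n r c e m : ℕ} (hn : 3 ≤ n) (hrc : r * (c + 4) + 2 * c + e ≤ 270)
    (h3m : 3 * m ≤ n) :
    n ^ c + r * ((2 * n ^ c) * (2 * n ^ (12 + e))) < n ^ (c + 18 + e) ∧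
    n ^ c + r * ((2 * n ^ c) * (n ^ (c + 18 + e) + 2 * n ^ (12 + e))) ≤ n ^ (2 * c + 24 + e) ∧
    (Fintype.card (E m) * (2 * (2 * n ^ c) + 1)) ^ r * (2 * n ^ (2 * c + 24 + e) + 1) <
      n ^ (r * (c + 4) + 2 * c + 25 + e) + 1 ∧
    n ^ (r * (c + 4) + 2 * c + 25 + e) + n ^ (c + 18 + e) + 2 * n ^ (12 + e) ≤ n ^ 300 := by
  have hr : 4 * r ≤ 270 := by
    have : r * 4 ≤ r * (c + 4) := Nat.mul_le_mul_left r (by omega)
    omega
  have hpow : ∀ a b : ℕ, a ≤ b → n ^ a ≤ n ^ b := fun a b hab => Nat.pow_le_pow_right (by omega) hab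
  have hn1 : 1 ≤ n := by omega
  have hn6 : 729 ≤ n ^ 6 := by
    calc 729 = 3 ^ 6 := by norm_num
      _ ≤ n ^ 6 := Nat.pow_le_pow_left hn 6
  have hpos : ∀ a : ℕ, 0 < n ^ a := fun a => Nat.pow_pos (by omega)
  refine ⟨?_, ?_, ?_, ?_⟩
  · calc n ^ c + r * ((2 * n ^ c) * (2 * n ^ (12 + e))) = n ^ c + 4 * r * n ^ (c + 12 + e) := by
          have : n ^ (c + 12 + e) = n ^ c * n ^ (12 + e) := by rw [← pow_add]; congr 1; ring
          rw [this]; ring
      _ ≤ n ^ (c + 12 + e) + 4 * r * n ^ (c + 12 + e) := Nat.add_le_add_right (hpow _ _ (by omega)) _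
      _ = (4 * r + 1) * n ^ (c + 12 + e) := by ring
      _ < 729 * n ^ (c + 12 + e) := Nat.mul_lt_mul_of_pos_right (by omega) (hpos _)
      _ ≤ n ^ 6 * n ^ (c + 12 + e) := Nat.mul_le_mul_right _ hn6
      _ = n ^ (c + 18 + e) := by rw [← pow_add]; congr 1; ring
  · have h1 : 2 * n ^ (12 + e) ≤ 2 * n ^ (c + 18 + e) := Nat.mul_le_mul_left 2 (hpow _ _ (by omega))
    calc n ^ c + r * ((2 * n ^ c) * (n ^ (c + 18 + e) + 2 * n ^ (12 + e)))
        ≤ n ^ (2 * c + 18 + e) + r * ((2 * n ^ c) * (n ^ (c + 18 + e) + 2 * n ^ (c + 18 + e))) := by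
          apply Nat.add_le_add (hpow _ _ (by omega))
          apply Nat.mul_le_mul_left
          apply Nat.mul_le_mul_left
          omega
      _ = (6 * r + 1) * n ^ (2 * c + 18 + e) := by
          have : n ^ (2 * c + 18 + e) = n ^ c * n ^ (c + 18 + e) := by rw [← pow_add]; congr 1; ring
          rw [this]; ring
      _ ≤ 729 * n ^ (2 * c + 18 + e) := Nat.mul_le_mul_right _ (by omega)
      _ ≤ n ^ 6 * n ^ (2 * c + 18 + e) := Nat.mul_le_mul_right _ hn6
      _ = n ^ (2 * c + 24 + e) := by rw [← pow_add]; congr 1; ring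
  · have hE : Fintype.card (E m) = 3 * m ^ 2 := by
      simp [E, Fintype.card_prod]; ring
    have h1 : Fintype.card (E m) * (2 * (2 * n ^ c) + 1) ≤ n ^ (c + 4) := by
      rw [hE]
      have h2 : 2 * (2 * n ^ c) + 1 ≤ 5 * n ^ c := by have := hpos c; omega
      have h4 : 9 * m ^ 2 ≤ n ^ 2 := by nlinarith
      have h5 : 9 ≤ n ^ 2 := by nlinarith
      calc 3 * m ^ 2 * (2 * (2 * n ^ c) + 1) ≤ 3 * m ^ 2 * (5 * n ^ c) := Nat.mul_le_mul_left _ h2
        _ = 15 * m ^ 2 * n ^ c := by ring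
        _ ≤ (n ^ 2 * n ^ 2) * n ^ c := by
            apply Nat.mul_le_mul_right
            nlinarith
        _ = n ^ (c + 4) := by rw [← pow_add, ← pow_add]; congr 1; ring
    have h2 : (Fintype.card (E m) * (2 * (2 * n ^ c) + 1)) ^ r ≤ n ^ (r * (c + 4)) := by
      calc _ ≤ (n ^ (c + 4)) ^ r := Nat.pow_le_pow_left h1 r
        _ = _ := by rw [← pow_mul]; congr 1; ring
    have h3 : 2 * n ^ (2 * c + 24 + e) + 1 ≤ n ^ (2 * c + 25 + e) := by
      have h4 : n ^ (2 * c + 25 + e) = n ^ (2 * c + 24 + e) * n := by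
        rw [← pow_succ]; congr 1; ring
      have h5 := hpos (2 * c + 24 + e)
      nlinarith
    calc _ ≤ n ^ (r * (c + 4)) * n ^ (2 * c + 25 + e) := Nat.mul_le_mul h2 h3
      _ = n ^ (r * (c + 4) + 2 * c + 25 + e) := by rw [← pow_add]; congr 1; ring
      _ < _ := Nat.lt_succ_self _
  · have h1 := hpow (r * (c + 4) + 2 * c + 25 + e) 295 (by omega)
    have h2 := hpow (c + 18 + e) 295 (by omega)
    have h3 := hpow (12 + e) 295 (by omega)
    have h4 : n ^ 300 = n ^ 295 * n ^ 5 := by rw [← pow_add]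
    have h5 : 4 ≤ n ^ 5 := by
      calc 4 ≤ 3 ^ 5 := by norm_num
        _ ≤ n ^ 5 := Nat.pow_le_pow_left hn 5
    have h6 : n ^ 295 * 4 ≤ n ^ 295 * n ^ 5 := Nat.mul_le_mul_left _ h5
    omega

lemma sign_adm {n m r c : ℕ} (h : 3 * m ≤ n) {a : Fin n → Fin n → ℤ} {b : ℤ}
    (hS : SignOK n r c a b) :
    (univ.filter fun e => redc h a e ≠ 0).card ≤ r ∧ (∀ e, |redc h a e| ≤ ((2 * n ^ c : ℕ) : ℤ)) ∧
      |b| ≤ ((n ^ c : ℕ) : ℤ) ∧ ((univ.filter fun e => redc h a e < 0).card ≤ 1 ∨
        (univ.filter fun e => 0 < redc h a e).card ≤ 1) := by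
  obtain ⟨h1, h2, h3, h4⟩ := hS
  refine ⟨?_, ?_, ?_, ?_⟩
  · exact (card_redc_le h a (fun x => x ≠ 0) (by intro x y; omega)).trans h1
  · intro e
    unfold redc
    refine (abs_add_le _ _).trans ?_
    push_cast
    linarith [h2 (enc h e).1 (enc h e).2, h2 (enc h e).2 (enc h e).1]
  · push_cast; exact h3
  · rcases h4 with h4 | h4
    · left; exact (card_redc_le h a (fun x => x < 0) (by intro x y; omega)).trans h4
    · right; exact (card_redc_le h a (fun x => 0 < x) (by intro x y; omega)).trans h4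

/-- There are potentials that hide everything. -/
theorem exists_hides {n m r c e : ℕ} (hn : 3 ≤ n) (hrc : r * (c + 4) + 2 * c + e ≤ 270)
    (h : 3 * m ≤ n) (hm : 0 < m) :
    ∃ p : Fin 3 × Fin m → ℤ, Hides n h p (n ^ (c + 18 + e)) (n ^ (12 + e)) r c := by
  classical
  obtain ⟨P1, P2, P3, P4⟩ := params hn hrc h
  obtain ⟨p, hp0, hp⟩ := exists_pot hm (2 * n ^ c) r (n ^ (2 * c + 24 + e))
    (n ^ (r * (c + 4) + 2 * c + 25 + e)) P3
  refine ⟨p, ?_⟩
  generalize hB : n ^ (c + 18 + e) = B at *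
  generalize hG : n ^ (12 + e) = G at *
  generalize hRp : n ^ (r * (c + 4) + 2 * c + 25 + e) = Rp at *
  have hBpos : 0 < B := by rw [← hB]; exact Nat.pow_pos (by omega)
  have hpot : ∀ e : E m, |pot p e| ≤ Rp := by
    intro e
    have h1 := hp0 (e.1, e.2.1)
    have h2 := hp0 (e.1 + 1, e.2.2)
    unfold pot
    rw [abs_le]
    constructor <;> linarith [h1.1, h1.2, h2.1, h2.2]
  have hgle : ∀ (g : E m → Fin (G + 1)) e, ((g e : ℕ) : ℤ) ≤ G := by
    intro g e
    have := (g e).isLt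
    have h1 : (g e : ℕ) ≤ G := by omega
    exact_mod_cast h1
  have hg0 : ∀ (g : E m → Fin (G + 1)) e, (0:ℤ) ≤ ((g e : ℕ) : ℤ) := fun g e => by positivity
  have P4' : (Rp : ℤ) + B + 2 * G ≤ (n:ℤ) ^ 300 := by exact_mod_cast P4
  have hB0 : (0:ℤ) ≤ B := by positivity
  have hG0 : (0:ℤ) ≤ G := by positivity
  refine ⟨?_, ?_, ?_, ?_, ?_, ?_⟩
  · intro g
    apply instOf_valid
    intro e
    have h1 := abs_le.1 (hpot e)
    have h2 := hgle g e
    have h3 := hg0 g e
    unfold wB
    rw [abs_le]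
    constructor <;> linarith [h1.1, h1.2]
  · intro T g
    apply instOf_valid
    intro e
    have h1 := abs_le.1 (hpot e)
    have h2 := hgle g e
    have h3 := hg0 g e
    have h4 := hgle g (tk T 0)
    have h5 := hg0 g (tk T 0)
    have h6 := hgle g (tk T 1)
    have h7 := hg0 g (tk T 1)
    unfold wT
    split_ifs
    · rw [abs_le]; constructor <;> linarith [h1.1, h1.2]
    · rw [abs_le]; constructor <;> linarith [h1.1, h1.2]
    · rw [abs_le]; constructor <;> linarith [h1.1, h1.2]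
  · intro g hy
    rw [instOf_yes] at hy
    obtain ⟨T, hT⟩ := hy
    exact wB_no p hBpos G g T hT
  · intro T g
    rw [instOf_yes]
    exact ⟨T, wT_yes p B G T g⟩
  · intro a b hS g
    obtain ⟨h1, h2, h3, h4⟩ := sign_adm h hS
    apply sign_robust (G2 := 2 * G) (B := B) hp P2 P1 h1 h2 h3 h4 (s := fun _ => 1) _ (Or.inl fun _ => rfl)
    intro e
    have h5 := hgle g e
    have h6 := hg0 g e
    unfold wB
    push_cast
    rw [abs_le]; constructor <;> linarith
  · intro a b hS T hhit g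
    obtain ⟨h1, h2, h3, h4⟩ := sign_adm h hS
    by_cases hz : redc h a = 0
    · rw [hz]
      unfold code
      have : bv (0 : E m → ℤ) = 0 := by funext v; simp [bv]
      simp [this]
    · apply sign_robust (G2 := 2 * G) (B := B) hp P2 P1 h1 h2 h3 h4
        (s := fun e => if e ∈ te T then 0 else 1) _
      · right
        refine ⟨T, fun _ => rfl, ?_⟩
        intro c0 hc0
        refine hhit c0 ?_ hc0
        rintro rfl
        apply hz
        rw [hc0]
        funext e
        simp [Pool.Agent.Helper22.ETModel.ind]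
      · intro e
        have h5 := hgle g e
        have h6 := hg0 g e
        have h7 := hgle g (tk T 0)
        have h8 := hg0 g (tk T 0)
        have h9 := hgle g (tk T 1)
        have h10 := hg0 g (tk T 1)
        unfold wT
        push_cast
        by_cases he : e ∈ te T
        · simp only [if_pos he]
          split_ifs
          · rw [abs_le]; constructor <;> linarith
          · rw [abs_le]; constructor <;> linarith
        · simp only [if_neg he]
          rw [abs_le]; constructor <;> linarith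

end Pool.Agent.Helper95.LK
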