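import Mathlib
import Pool.Agent.Helper8.LK.Par
import Pool.Agent.Helper95.LK.Assembly

/-!
# Success probabilities averaged over the noise
-/

set_option autoImplicit false

namespace Pool.Agent.Helper95.LK

open Finset
open Pool.Agent.Helper22.ETModel Pool.Agent.Helper8.LK

variable {n m L R : ℕ}

/-- Probability over the noise of the output `false` on the null instance. -/
noncomputable def fB (A : LAlg n L R) (h : 3 * m ≤ n) (p : Fin 3 × Fin m → ℤ) (B G : ℕ)
    (ρ : Fin R → Bool) : ℝ :=
  ((univ.filter fun g : E m → Fin (G + 1) =>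
    A.output (instOf h (wB p B G g)) ρ = false).card : ℝ) / ((G : ℝ) + 1) ^ Fintype.card (E m)

/-- Probability over the noise of the output `false` on the planted instance. -/
noncomputable def fT (A : LAlg n L R) (h : 3 * m ≤ n) (p : Fin 3 × Fin m → ℤ) (B G : ℕ)
    (T : Tri m) (ρ : Fin R → Bool) : ℝ :=
  ((univ.filter fun g : E m → Fin (G + 1) =>
    A.output (instOf h (wT p B G T g)) ρ = false).card : ℝ) / ((G : ℝ) + 1) ^ Fintype.card (E m)

/-- Double counting. -/
lemma sum_prob {Ω : Type*} [Fintype Ω] (W : ℝ) (hW : 0 < W) (hcard : (Fintype.card Ω : ℝ) = W)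
    (P : Ω → (Fin R → Bool) → Prop) [∀ g ρ, Decidable (P g ρ)] (c : ℝ)
    (hP : ∀ g, c ≤ ((univ.filter fun ρ => P g ρ).card : ℝ)) :
    c ≤ ∑ ρ, ((univ.filter fun g => P g ρ).card : ℝ) / W := by
  have h1 : ∑ g : Ω, ((univ.filter fun ρ => P g ρ).card : ℝ) =
      ∑ ρ, ((univ.filter fun g => P g ρ).card : ℝ) := by
    simp_rw [Finset.card_filter]
    push_cast
    exact Finset.sum_comm
  have h2 : ∑ _g : Ω, c ≤ ∑ g : Ω, ((univ.filter fun ρ => P g ρ).card : ℝ) :=
    Finset.sum_le_sum fun g _ => hP g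
  rw [Finset.sum_const, Finset.card_univ, nsmul_eq_mul, hcard, h1] at h2
  rw [← Finset.sum_div, le_div_iff₀ hW]
  linarith

lemma sum_prob' {Ω : Type*} [Fintype Ω] (W : ℝ) (hW : 0 < W) (hcard : (Fintype.card Ω : ℝ) = W)
    (P : Ω → (Fin R → Bool) → Prop) [∀ g ρ, Decidable (P g ρ)] (c : ℝ)
    (hP : ∀ g, ((univ.filter fun ρ => P g ρ).card : ℝ) ≤ c) :
    ∑ ρ, ((univ.filter fun g => P g ρ).card : ℝ) / W ≤ c := by
  have h1 : ∑ g : Ω, ((univ.filter fun ρ => P g ρ).card : ℝ) =
      ∑ ρ, ((univ.filter fun g => P g ρ).card : ℝ) := by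
    simp_rw [Finset.card_filter]
    push_cast
    exact Finset.sum_comm
  have h2 : ∑ g : Ω, ((univ.filter fun ρ => P g ρ).card : ℝ) ≤ ∑ _g : Ω, c :=
    Finset.sum_le_sum fun g _ => hP g
  rw [Finset.sum_const, Finset.card_univ, nsmul_eq_mul, hcard, h1] at h2
  rw [← Finset.sum_div, div_le_iff₀ hW]
  linarith

lemma card_noise (G m : ℕ) :
    (Fintype.card (E m → Fin (G + 1)) : ℝ) = ((G : ℝ) + 1) ^ Fintype.card (E m) := by
  rw [Fintype.card_fun, Fintype.card_fin]
  push_cast
  rfl

lemma sum_fB {A : LAlg n L R} (hdec : A.Decides) {h : 3 * m ≤ n} {p : Fin 3 × Fin m → ℤ}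
    {B G r c : ℕ} (H : Hides n h p B G r c) :
    2 * (2 : ℝ) ^ R ≤ 3 * ∑ ρ, fB A h p B G ρ := by
  have hW : (0 : ℝ) < ((G : ℝ) + 1) ^ Fintype.card (E m) := by positivity
  have h1 := sum_prob (R := R) _ hW (card_noise G m)
    (fun (g : E m → Fin (G + 1)) ρ => A.output (instOf h (wB p B G g)) ρ = false)
    (2 * (2 : ℝ) ^ R / 3) (by
      intro g
      have h2 := hdec _ (H.validB g)
      have h3 : 2 * 2 ^ R ≤ 3 * (univ.filter fun ρ : Fin R → Bool =>
          A.output (instOf h (wB p B G g)) ρ = false).card := by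
        refine h2.trans (Nat.mul_le_mul_left 3 (Finset.card_le_card ?_))
        classical
        intro ρ hρ
        rw [Finset.mem_filter] at hρ ⊢
        refine ⟨Finset.mem_univ _, ?_⟩
        rw [← Bool.not_eq_true]
        exact fun h5 => H.noB g (hρ.2.1 h5)
      have h4 : (2 : ℝ) * 2 ^ R ≤ 3 * ((univ.filter fun ρ : Fin R → Bool =>
          A.output (instOf h (wB p B G g)) ρ = false).card : ℝ) := by exact_mod_cast h3
      linarith)
  unfold fB
  linarith

lemma sum_fT {A : LAlg n L R} (hdec : A.Decides) {h : 3 * m ≤ n} {p : Fin 3 × Fin m → ℤ}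
    {B G r c : ℕ} (H : Hides n h p B G r c) (T : Tri m) :
    3 * ∑ ρ, fT A h p B G T ρ ≤ (2 : ℝ) ^ R := by
  have hW : (0 : ℝ) < ((G : ℝ) + 1) ^ Fintype.card (E m) := by positivity
  have h1 := sum_prob' (R := R) _ hW (card_noise G m)
    (fun (g : E m → Fin (G + 1)) ρ => A.output (instOf h (wT p B G T g)) ρ = false)
    ((2 : ℝ) ^ R / 3) (by
      intro g
      have h2 := hdec _ (H.validT T g)
      have h3 : 2 * 2 ^ R ≤ 3 * (univ.filter fun ρ : Fin R → Bool =>
          A.output (instOf h (wT p B G T g)) ρ = true).card := by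
        refine h2.trans (Nat.mul_le_mul_left 3 (Finset.card_le_card ?_))
        classical
        intro ρ hρ
        rw [Finset.mem_filter] at hρ ⊢
        exact ⟨Finset.mem_univ _, hρ.2.2 (H.yesT T g)⟩
      have h4 : (2 : ℝ) * 2 ^ R ≤ 3 * ((univ.filter fun ρ : Fin R → Bool =>
          A.output (instOf h (wT p B G T g)) ρ = true).card : ℝ) := by exact_mod_cast h3
      have h5 : (univ.filter fun ρ : Fin R → Bool =>
          A.output (instOf h (wT p B G T g)) ρ = true).card + (univ.filter fun ρ : Fin R → Bool =>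
          A.output (instOf h (wT p B G T g)) ρ = false).card = 2 ^ R := by
        have h6 := Finset.card_filter_add_card_filter_not (s := (univ : Finset (Fin R → Bool)))
          (fun ρ => A.output (instOf h (wT p B G T g)) ρ = true)
        rw [Finset.card_univ] at h6
        simp only [Bool.not_eq_true] at h6
        rw [h6]
        simp
      have h7 : ((univ.filter fun ρ : Fin R → Bool =>
          A.output (instOf h (wT p B G T g)) ρ = true).card : ℝ) + ((univ.filter
          fun ρ : Fin R → Bool =>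
          A.output (instOf h (wT p B G T g)) ρ = false).card : ℝ) = 2 ^ R := by exact_mod_cast h5
      linarith)
  unfold fT
  linarith

end Pool.Agent.Helper95.LK
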