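import Mathlib
import Pool.Agent.Helper8.LK.Err
import Pool.Agent.Helper95.LK.Prob
import Pool.Agent.Helper95.LK.Params

/-!
# The lower bound with inspected bits
-/

set_option autoImplicit false

namespace Pool.Agent.Helper95.LK

open Finset
open Pool.Agent.Helper22.ETModel Pool.Agent.Helper8.LK

variable {n m L R D b d r c e : ℕ}

/-- The ideal run of an algorithm for the random string `ρ`. -/
noncomputable def idealOf (A : LAlg n L R) (h : 3 * m ≤ n) (p : Fin 3 × Fin m → ℤ)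
    (ρ : Fin R → Bool) (B G q : ℕ) [NeZero q] (hH : Hides n h p B G r c)
    (hbig : D ^ 2 * d < (G + 1) / q) (hW : A.Within D b)
    (hA1 : ∀ fl ρ ans f, A.next fl ρ ans = Act.query (Query.value f) → f.totalDegree ≤ d)
    (hA2 : ∀ fl ρ ans a b, A.next fl ρ ans = Act.query (Query.sign a b) → SignOK n r c a b)
    (hper : ∀ ans i j φ, A.next (flagOf h) ρ ans = Act.bit i j φ → ∀ z : ℤ, φ (z + q) = φ z)
    (l : ℕ) (hl : 1 ≤ l) (hD : D < 2 ^ l) :
    Ideal m L b ((468 * (d + 1) * l ^ 3) * D + D) q where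
  R := reading A h p ρ q
  used_le := fun x e => used_le A h p B G ρ hH hbig hW hA1 hA2 hper x e
  lout := fun x => lout A h p ρ x
  lout_eq := fun _ _ hc => lout_congr A h p ρ hc
  Cov := fun x => Cov A h p ρ x
  Cov_eq := fun _ _ hc => Cov_congr A h p ρ hc
  Cov_le := fun x => card_Cov_le A h p B G ρ hH hbig hW hA1 hA2 hper hl hD x

/-- The bound for one potential that hides the planted triangles. -/
theorem core_bound {G : ℕ} (hn : 2 ^ (b + 17) ≤ n)
    (hbig' : ∀ q, 1 ≤ q → q ≤ n ^ e → D ^ 2 * d < (G + 1) / q)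
    (herr' : ∀ q, 1 ≤ q → q ≤ n ^ e → err m G q D d ≤ 1 / 200)
    (A : LAlg n L R) (hA : A.Admissible d r c e) (hW : A.Within D b) (hdec : A.Decides)
    (h : 3 * m ≤ n) (hK : 2 ^ (b + 15) ≤ m) (p : Fin 3 × Fin m → ℤ) (B : ℕ)
    (hG : G = n ^ (12 + e))
    (H : Hides n h p B G r c) (l : ℕ) (hl : 1 ≤ l) (hDl : D < 2 ^ l) :
    (m : ℝ) ^ 3 ≤ 10 * ((468 * (d + 1) * l ^ 3 * D + D : ℕ) : ℝ) * 2 ^ (b + 15) := by
  obtain ⟨hA1, hA2, q0, hq0, hper0⟩ := hA
  have hn17 : 2 ^ 17 ≤ n := le_trans (Nat.pow_le_pow_right (by norm_num) (by omega)) hn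
  have hn1000 : 1000 ≤ n := le_trans (by norm_num) hn17
  have hm0 : 0 < m := lt_of_lt_of_le (by positivity) hK
  let q : (Fin R → Bool) → ℕ := fun ρ => q0 (flagOf h) ρ
  have hq1 : ∀ ρ, 1 ≤ q ρ := fun ρ => (hq0 (flagOf h) ρ).1
  have hqe : ∀ ρ, q ρ ≤ n ^ e := fun ρ => (hq0 (flagOf h) ρ).2
  haveI hqz : ∀ ρ, NeZero (q ρ) := fun ρ => ⟨by have := hq1 ρ; omega⟩
  have hper : ∀ ρ, ∀ ans i j φ, A.next (flagOf h) ρ ans = Act.bit i j φ →
      ∀ z : ℤ, φ (z + q ρ) = φ z := fun ρ ans i j φ hφ => hper0 (flagOf h) ρ ans i j φ hφ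
  have hbig : ∀ ρ, D ^ 2 * d < (G + 1) / q ρ := fun ρ => hbig' _ (hq1 ρ) (hqe ρ)
  have hR : ∀ ρ, Fintype.card (E m) * q ρ ≤ G + 1 := fun ρ => by
    rw [hG]; exact card_le_of (by omega) h (hqe ρ)
  have herr : ∀ ρ, err m G (q ρ) D d ≤ 1 / 200 := fun ρ => herr' _ (hq1 ρ) (hqe ρ)
  have hsum := assembly (m := m) (L := L) (b := b) (N := (468 * (d + 1) * l ^ 3) * D + D) (R := R)
    hm0 hK q (fun ρ => idealOf A h p ρ B G (q ρ) H (hbig ρ) hW hA1 hA2 (hper ρ) l hl hDl)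
    (fB A h p B G) (fT A h p B G) (1 / 200) le_rfl (sum_fB hdec H) (sum_fT hdec H)
    (by
      intro ρ
      have h1 := out_null A h p B G ρ H (hbig ρ) (hR ρ) hW hA1 hA2 (hper ρ)
      have h2 := herr ρ
      refine le_trans (le_of_eq ?_) (h1.trans (add_le_add (le_of_eq ?_) h2))
      · unfold fB
        push_cast
        congr!
      · unfold Ideal.pB idealOf
        congr!)
    (by
      intro ρ T
      have h1 := out_planted A h p B G ρ H (hbig ρ) (hR ρ) hW hA1 hA2 (hper ρ) T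
      have h2 := herr ρ
      refine le_trans (sub_le_sub (le_of_eq ?_) h2) (h1.trans (le_of_eq ?_))
      · unfold Ideal.pT idealOf
        congr!
      · unfold fT
        push_cast
        congr!)
  exact hsum

/-- **Lower bound with inspected bits.** -/
theorem lower_bound {n L R D b d r c e : ℕ} (hrc : r * (c + 4) + 2 * c + e ≤ 270)
    (hn : 2 ^ (b + 17) ≤ n) (A : LAlg n L R) (hA : A.Admissible d r c e) (hW : A.Within D b)
    (hdec : A.Decides) :
    (n : ℝ) ^ 3 ≤ 2 ^ (b + 37) * (D : ℝ) * ((d : ℝ) + 1) * (Real.logb 2 (n : ℝ)) ^ 3 := by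
  have hn17 : 2 ^ 17 ≤ n := le_trans (Nat.pow_le_pow_right (by norm_num) (by omega)) hn
  have hn3 : 3 ≤ n := le_trans (by norm_num) hn17
  have hK : 2 ^ (b + 15) ≤ n / 3 := by
    have h1 : 2 ^ (b + 17) = 4 * 2 ^ (b + 15) := by
      rw [show b + 17 = (b + 15) + 2 by ring, pow_add]; ring
    have h2 : 1 ≤ 2 ^ (b + 15) := Nat.one_le_two_pow
    omega
  have hm0 : 0 < n / 3 := lt_of_lt_of_le (by positivity) hK
  have h : 3 * (n / 3) ≤ n := Nat.mul_div_le n 3
  have hlam1 : 1 ≤ Real.logb 2 (n : ℝ) := by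
    have hn3' : (3 : ℝ) ≤ n := by exact_mod_cast hn3
    rw [Real.le_logb_iff_rpow_le (by norm_num) (by linarith)]
    norm_num; linarith
  have hlam3 : 1 ≤ (Real.logb 2 (n : ℝ)) ^ 3 := one_le_pow₀ hlam1
  have hn4 : 10000 ≤ n := le_trans (by norm_num) hn17
  obtain ⟨p, H⟩ := exists_hides hn3 hrc h hm0
  have hmR : (0 : ℝ) < ((n / 3 : ℕ) : ℝ) ^ 3 := by
    have : (0 : ℝ) < ((n / 3 : ℕ) : ℝ) := by exact_mod_cast hm0
    positivity
  have hD1 : 1 ≤ D := by
    by_contra hcon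
    have hD0 : D = 0 := by omega
    subst hD0
    have h1 := core_bound (d := d) hn
      (fun q hq1 hq => by
        have := big_of (D := 0) (d := 0) (by omega : 100 ≤ n) hq1 hq (Nat.zero_le _) (Nat.zero_le _)
        simpa using this)
      (fun q hq1 hq => by
        have := err_le' (m := n / 3) (D := 0) (d := 0) hn4 h hq1 hq (Nat.zero_le _) (Nat.zero_le _)
        refine le_trans (le_of_eq ?_) (this.trans (by norm_num))
        unfold err
        simp)
      A hA hW hdec h hK p _ rfl H 1 le_rfl (by norm_num)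
    simp only [mul_zero, add_zero, Nat.cast_zero, zero_mul] at h1
    linarith
  by_cases hDn : D ≤ n ^ 3 ∧ d ≤ n ^ 3
  · obtain ⟨hDn, hdn⟩ := hDn
    set l := Nat.log 2 D + 1 with hl
    have hDl : D < 2 ^ l := Nat.lt_pow_succ_log_self (by norm_num) D
    have h1 := core_bound hn
      (fun q hq1 hq => big_of (by omega) hq1 hq hDn hdn)
      (fun q hq1 hq => (err_le' hn4 h hq1 hq hDn hdn).trans (by norm_num))
      A hA hW hdec h hK p _ rfl H l (by omega) hDl
    have h2 := numeric hn hD1 hDn hl h1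
    refine h2.trans (le_of_eq ?_)
    rw [pow_add]
    ring
  · rw [not_and_or] at hDn
    push Not at hDn
    have hDr : (1 : ℝ) ≤ D := by exact_mod_cast hD1
    have hd0 : (0 : ℝ) ≤ d := Nat.cast_nonneg _
    have h0 : (n : ℝ) ^ 3 ≤ D * ((d : ℝ) + 1) := by
      rcases hDn with hDn | hdn
      · have h1 : (n : ℝ) ^ 3 ≤ D := by exact_mod_cast hDn.le
        nlinarith
      · have h1 : (n : ℝ) ^ 3 ≤ d := by exact_mod_cast hdn.le
        nlinarith
    have h2 : (1 : ℝ) ≤ 2 ^ (b + 37) := one_le_pow₀ (by norm_num)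
    calc (n : ℝ) ^ 3 ≤ D * ((d : ℝ) + 1) := h0
      _ ≤ 2 ^ (b + 37) * (D * ((d : ℝ) + 1)) := by
          have : 0 ≤ (D : ℝ) * ((d : ℝ) + 1) := by positivity
          nlinarith
      _ = 2 ^ (b + 37) * D * ((d : ℝ) + 1) * 1 := by ring
      _ ≤ _ := by gcongr

end Pool.Agent.Helper95.LK
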