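import Mathlib
import Pool.Agent.Helper8.LK.Defs
import Pool.Agent.Helper95.LK.Main
import Pool.Agent.Helper7.LK.Arb
import Pool.Agent.Helper93.LK.Upper

/-!
# Exact Triangle with inspected bits and low-degree access

The model (`Pool/Agent/Helper8/LK/Defs.lean`, over `Pool/Agent/Helper22/ETModel.lean`): a
randomized adaptive algorithm of unlimited computing power that knows all edge flags. At every step
it either inspects one bit of one weight or asks a query:

* value queries: compute an arbitrary real polynomial of degree at most `d` in all the weights as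
  an opaque handle; all equalities among the values computed so far are known;
* sign queries: the sign of an integer affine form in at most `r` weights with coefficients at most
  `n ^ c`, at most one of them negative (or at most one positive).

A bit is an arbitrary `{0,1}`-valued function of the weight if the algorithm asks no sign queries;
otherwise it is an arbitrary `{0,1}`-valued function of the weight modulo `q ≤ n ^ e`, where `q` may
depend on the flags and the random bits.

Theorem: if at most `b` bits of every weight are inspected, then at least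
`n ^ 3 / (2 ^ (b + 40) (d + 1) log^3 n)` queries are needed, and
`2 ^ 12 n ^ 3 b log n / (d 2 ^ b) + 2` value queries suffice. So the exponent is 3 as long as
`o(log n)` bits of every weight are inspected, and `3 - β` with `β log n` bits, `0 ≤ β < 1`.

Idea of the proof. The bits inspected so far determine a box of weights (of residues of the noise
that the hard instances carry, if there are sign queries); the likelihood ratio of the law planted
at a triangle `T` against the null law is at most `2 ^ (b + t)` as long as one of the three cells
has density at least `2 ^ -(b + t)`. An adaptive algorithm can make all three cells of one given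
triangle much smaller than `2 ^ -b` (by questions about the third weight in terms of the two
others), but not for an average triangle: stop when the first of the three cells becomes small and
apply the second moment method to the `n` triangles of this edge. A second moment bound for the
mixture over `T` shows that the bits alone do not distinguish the laws, and the covering lemma of
`LowDegreeAccess` bounds the number of triangles that the queries can see.
-/

set_option autoImplicit false

namespace Pool.Agent.Helper95.LK.Statement

open Pool.Agent.Helper22.ETModel Pool.Agent.Helper8.LK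

/-- All queries are value queries of degree at most `d`; there is no condition on the inspected
bits, so a bit of a weight is an arbitrary `{0,1}`-valued function of this weight. -/
def ValueOnly {n L R : ℕ} (A : LAlg n L R) (d : ℕ) : Prop :=
  (∀ fl ρ ans f, A.next fl ρ ans = Act.query (Query.value f) → f.totalDegree ≤ d) ∧
  ∀ fl ρ ans a c, A.next fl ρ ans ≠ Act.query (Query.sign a c)

/-- Lower and upper bound for Exact Triangle with `b` inspected bits per weight and low-degree
access. -/
theorem result :
    (∀ n r c d e b D L R : ℕ, r * (c + 4) + 2 * c + e ≤ 270 → 2 ^ (b + 20) ≤ n →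
      ∀ A : LAlg n L R, (A.Admissible d r c e ∨ ValueOnly A d) → A.Within D b → A.Decides →
        (n : ℝ) ^ 3 ≤ 2 ^ (b + 40) * (D : ℝ) * ((d : ℝ) + 1) * (Real.logb 2 (n : ℝ)) ^ 3) ∧
    (∀ n b d e : ℕ, 2 ≤ n → 1 ≤ b → 1 ≤ d → 2 ^ b ≤ n ^ e →
      ∃ D L : ℕ, ∃ A : LAlg n L b, A.Admissible d 0 0 e ∧ A.Within D b ∧ A.Decides ∧
        (D : ℝ) ≤ 2 ^ 12 * (n : ℝ) ^ 3 * b * Real.logb 2 (n : ℝ) / (d * 2 ^ b) + 2) ∧
    (∀ n d : ℕ, 1 ≤ d →
      ∃ L : ℕ, ∃ A : LAlg n L 0, A.Admissible d 0 0 0 ∧ A.Within (n ^ 3 / d + 2) 0 ∧ A.Decides) := by
  refine ⟨?_, fun _ _ _ _ hn hb hd he => Pool.Agent.Helper93.LK.upper_bound_bits hn hb hd he,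
    fun n d hd => Pool.Agent.Helper93.LK.upper_bound_zero n d hd⟩
  intro n r c d e b D L R hrc hn A hA hW hdec
  rcases hA with hA | ⟨hA1, hA2⟩
  · have hn17 : 2 ^ (b + 17) ≤ n :=
      le_trans (Nat.pow_le_pow_right (by norm_num) (by omega)) hn
    have h1 := Pool.Agent.Helper95.LK.lower_bound hrc hn17 A hA hW hdec
    have hn1 : (1 : ℝ) ≤ n := by
      have : 1 ≤ n := le_trans Nat.one_le_two_pow hn
      exact_mod_cast this
    have h2 : (0 : ℝ) ≤ (D : ℝ) * ((d : ℝ) + 1) * (Real.logb 2 (n : ℝ)) ^ 3 := by
      have := Real.logb_nonneg (b := 2) (by norm_num) hn1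
      positivity
    have h3 : (2 : ℝ) ^ (b + 37) ≤ 2 ^ (b + 40) :=
      pow_le_pow_right₀ (by norm_num) (by omega)
    have h4 := mul_le_mul_of_nonneg_right h3 h2
    calc (n : ℝ) ^ 3 ≤ 2 ^ (b + 37) * (D : ℝ) * ((d : ℝ) + 1) * (Real.logb 2 (n : ℝ)) ^ 3 := h1
      _ = 2 ^ (b + 37) * ((D : ℝ) * ((d : ℝ) + 1) * (Real.logb 2 (n : ℝ)) ^ 3) := by ring
      _ ≤ 2 ^ (b + 40) * ((D : ℝ) * ((d : ℝ) + 1) * (Real.logb 2 (n : ℝ)) ^ 3) := h4
      _ = _ := by ring
  · exact Pool.Agent.Helper7.LK.lower_bound_arb hn A hA1 hA2 hW hdec

end Pool.Agent.Helper95.LK.Statement
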